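import Pool.Agent.Lib.P1346K.Nest

/-!
# The blocks of a node
-/

set_option autoImplicit false

namespace P1346e8

namespace K

open Q

variable {V : Type} {H f e : V → V → Prop} {W K : V → Prop} {α β φ : (V → Prop) → Prop} {x y z : V}

theorem cp_sb_cmp (h : Cmp e f) {x y : V} (hs : SB e K x y) : SB f K x y := by
  rcases hs with rfl | ⟨M, h1, h2⟩
  · exact Or.inl rfl
  · exact Or.inr ⟨M, mod_cmp h h1, h2⟩

/-- The graph or its complement is connected. -/
theorem conn_or (h : Cmp H f) (W : V → Prop) : Conn H W ∨ Conn f W := by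
  by_cases hc : Conn f W
  · exact Or.inr hc
  left
  unfold Conn at hc
  push Not at hc
  obtain ⟨u, v, hu, hv, huv⟩ := hc
  have adj : ∀ a b, W a → W b → ¬ Cp f W a b → H a b := by
    intro a b ha hb hab
    have hne : a ≠ b := by
      rintro rfl
      exact hab (Cp.refl ha)
    rw [h.ef a b hne]
    exact fun g => hab (Cp.step ha hb g)
  intro a b ha hb
  by_cases hab : Cp f W a b
  · by_cases hau : Cp f W a u
    · have hav : ¬ Cp f W a v := fun g => huv ((hau.symm h.sf).trans g)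
      have hbv : ¬ Cp f W v b := fun g => hav (hab.trans (g.symm h.sf))
      exact (Cp.step ha hv (adj a v ha hv hav)).trans (Cp.step hv hb (adj v b hv hb hbv))
    · have hbu : ¬ Cp f W u b := fun g => hau (hab.trans (g.symm h.sf))
      exact (Cp.step ha hu (adj a u ha hu hau)).trans (Cp.step hu hb (adj u b hu hb hbu))
  · exact Cp.step ha hb (adj a b ha hb hab)

/-- Components, where the components with property `φ` are divided further. -/
def Bc (e : V → V → Prop) (φ : (V → Prop) → Prop) (W : V → Prop) (x y : V) : Prop :=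
  Cp e W x y ∧ (φ (Cp e W x) → SB e (Cp e W x) x y)

theorem bc_symm (hs : ∀ u v, e u v → e v u) (hb : Bc e φ W x y) : Bc e φ W y x := by
  refine ⟨hb.1.symm hs, fun g => ?_⟩
  rw [← hb.1.eq hs] at g ⊢
  exact sb_symm (hb.2 g)

theorem bc_trans (h : Cmp e f) (hφ : ∀ K, φ K → Conn f K) (hb : Bc e φ W x y)
    (hb' : Bc e φ W y z) : Bc e φ W x z := by
  refine ⟨hb.1.trans hb'.1, fun g => ?_⟩
  have h1 := hb.2 g
  have h2 := hb'.2
  rw [← hb.1.eq h.se] at h2
  exact sb_trans h (conn_cp h.se) (hφ _ g) h1 (h2 g)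

theorem bc_eq_cp (g : ¬ φ (Cp e W x)) : Bc e φ W x = Cp e W x := by
  funext y
  exact propext ⟨fun k => k.1, fun k => ⟨k, fun g' => absurd g' g⟩⟩

theorem bc_eq_sb (g : φ (Cp e W x)) :
    Bc e φ W x = fun y => Cp e W x y ∧ SB e (Cp e W x) x y := by
  funext y
  exact propext ⟨fun k => ⟨k.1, k.2 g⟩, fun k => ⟨k.1, fun _ => k.2⟩⟩

theorem bc_mod (h : Cmp e f) (hφ : ∀ K, φ K → Conn f K) (hW : Q.Mod e W) (x : V) :
    Q.Mod e (Bc e φ W x) := by
  by_cases g : φ (Cp e W x)
  · rw [bc_eq_sb g]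
    exact sb_mod h (conn_cp h.se) (hφ _ g) x
  · rw [bc_eq_cp g]
    exact mod_cp hW x

theorem bc_ne (hs : ∀ u v, e u v → e v u) (hc : ¬ Conn e W) (x : V) :
    ∃ z, W z ∧ ¬ Bc e φ W x z := by
  unfold Conn at hc
  push Not at hc
  obtain ⟨u, v, hu, hv, huv⟩ := hc
  by_cases h1 : Cp e W x u
  · exact ⟨v, hv, fun g => huv ((h1.symm hs).trans g.1)⟩
  · exact ⟨u, hu, fun g => h1 g.1⟩

/-- The blocks of the node `W`. -/
def Bm (H f : V → V → Prop) (α β : (V → Prop) → Prop) (W : V → Prop) (x y : V) : Prop :=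
  (¬ Conn f W ∧ Bc f (fun K => Conn H K ∧ α K) W x y) ∨
  (¬ Conn H W ∧ Bc H (fun K => Conn f K ∧ β K) W x y) ∨
  (Conn H W ∧ Conn f W ∧ W x ∧ W y ∧ SB H W x y)

theorem bm_s (h : Cmp H f) (hc : ¬ Conn f W) :
    Bm H f α β W = Bc f (fun K => Conn H K ∧ α K) W := by
  have hH := (conn_or h W).resolve_right hc
  funext x y
  apply propext
  constructor
  · rintro (g | g | g)
    · exact g.2
    · exact absurd hH g.1
    · exact absurd g.2.1 hc
  · intro g
    exact Or.inl ⟨hc, g⟩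

theorem bm_p (h : Cmp H f) (hc : ¬ Conn H W) :
    Bm H f α β W = Bc H (fun K => Conn f K ∧ β K) W := by
  have hH := (conn_or h W).resolve_left hc
  funext x y
  apply propext
  constructor
  · rintro (g | g | g)
    · exact absurd hH g.1
    · exact g.2
    · exact absurd g.1 hc
  · intro g
    exact Or.inr (Or.inl ⟨hc, g⟩)

theorem bm_b (hc : Conn H W) (hc' : Conn f W) :
    Bm H f α β W = fun x y => W x ∧ W y ∧ SB H W x y := by
  funext x y
  apply propext
  constructor
  · rintro (g | g | g)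
    · exact absurd hc' g.1
    · exact absurd hc g.1
    · exact g.2.2
  · intro g
    exact Or.inr (Or.inr ⟨hc, hc', g⟩)

theorem bm_swap (h : Cmp H f) : Bm f H β α W = Bm H f α β W := by
  by_cases hc : Conn f W
  · by_cases hc' : Conn H W
    · rw [bm_b hc hc', bm_b hc' hc]
      funext x y
      exact propext ⟨fun g => ⟨g.1, g.2.1, cp_sb_cmp h.symm g.2.2⟩,
        fun g => ⟨g.1, g.2.1, cp_sb_cmp h g.2.2⟩⟩
    · rw [bm_s h.symm hc', bm_p h hc']
  · rw [bm_p h.symm hc, bm_s h hc]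

theorem bm_sub (hb : Bm H f α β W x y) : W x ∧ W y := by
  rcases hb with ⟨_, g⟩ | ⟨_, g⟩ | ⟨_, _, g1, g2, _⟩
  · exact ⟨g.1.1, g.1.2.1⟩
  · exact ⟨g.1.1, g.1.2.1⟩
  · exact ⟨g1, g2⟩

theorem bm_refl (hx : W x) : Bm H f α β W x x := by
  by_cases hc : Conn f W
  · by_cases hc' : Conn H W
    · exact Or.inr (Or.inr ⟨hc', hc, hx, hx, Or.inl rfl⟩)
    · exact Or.inr (Or.inl ⟨hc', Cp.refl hx, fun _ => Or.inl rfl⟩)
  · exact Or.inl ⟨hc, Cp.refl hx, fun _ => Or.inl rfl⟩

theorem bm_symm (h : Cmp H f) (hb : Bm H f α β W x y) : Bm H f α β W y x := by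
  rcases hb with ⟨g, g'⟩ | ⟨g, g'⟩ | ⟨g, g', g1, g2, g3⟩
  · exact Or.inl ⟨g, bc_symm h.sf g'⟩
  · exact Or.inr (Or.inl ⟨g, bc_symm h.se g'⟩)
  · exact Or.inr (Or.inr ⟨g, g', g2, g1, sb_symm g3⟩)

theorem bm_trans (h : Cmp H f) (hb : Bm H f α β W x y) (hb' : Bm H f α β W y z) :
    Bm H f α β W x z := by
  by_cases hc : Conn f W
  · by_cases hc' : Conn H W
    · rw [bm_b hc' hc] at hb hb' ⊢
      exact ⟨hb.1, hb'.2.1, sb_trans h hc' hc hb.2.2 hb'.2.2⟩
    · rw [bm_p h hc'] at hb hb' ⊢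
      exact bc_trans h (fun K g => g.1) hb hb'
  · rw [bm_s h hc] at hb hb' ⊢
    exact bc_trans h.symm (fun K g => g.1) hb hb'

theorem bm_mod (h : Cmp H f) (hW : Q.Mod H W) (x : V) : Q.Mod H (Bm H f α β W x) := by
  by_cases hc : Conn f W
  · by_cases hc' : Conn H W
    · rw [bm_b hc' hc]
      intro u v y hu hv hy g
      exact sb_mod h hc' hc x u v y ⟨hu.2.1, hu.2.2⟩ ⟨hv.2.1, hv.2.2⟩
        (fun g' => hy ⟨hu.1, g'.1, g'.2⟩) g
    · rw [bm_p h hc']
      exact bc_mod h (fun K g => g.1) hW x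
  · rw [bm_s h hc]
    exact mod_cmp h.symm (bc_mod h.symm (fun K g => g.1) (mod_cmp h hW) x)

theorem bm_ne [Finite V] (h : Cmp H f) (hx : W x) (hy : W y) (hne : y ≠ x) :
    ∃ z, W z ∧ ¬ Bm H f α β W x z := by
  by_cases hc : Conn f W
  · by_cases hc' : Conn H W
    · rw [bm_b hc' hc]
      obtain ⟨z, h1, h2⟩ := sb_ne h hc' hc hx hy hne
      exact ⟨z, h1, fun g => h2 g.2.2⟩
    · rw [bm_p h hc']
      exact bc_ne h.se hc' x
  · rw [bm_s h hc]
    exact bc_ne h.sf hc x

/-! ### The nodes -/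

/-- The node of `x` on level `i`. -/
def Wm (H f : V → V → Prop) (α β : (V → Prop) → Prop) : ℕ → V → V → Prop
  | 0, _, _ => True
  | i + 1, x, y => Bm H f α β (Wm H f α β i x) x y

theorem wm_succ (i : ℕ) (x : V) :
    Wm H f α β (i + 1) x = Bm H f α β (Wm H f α β i x) x := rfl

theorem wm_swap (h : Cmp H f) (i : ℕ) : Wm f H β α i = Wm H f α β i := by
  induction i with
  | zero => rfl
  | succ i ih =>
    funext x
    rw [wm_succ, wm_succ, ih, bm_swap h]

theorem wm_self (i : ℕ) (x : V) : Wm H f α β i x x := by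
  induction i with
  | zero => trivial
  | succ i ih => exact bm_refl ih

theorem wm_mod (h : Cmp H f) (i : ℕ) (x : V) : Q.Mod H (Wm H f α β i x) := by
  induction i with
  | zero =>
    intro _ _ _ _ _ hy
    exact absurd trivial hy
  | succ i ih => exact bm_mod h ih x

theorem wm_eq (h : Cmp H f) {i : ℕ} {x y : V} (hxy : Wm H f α β i x y) :
    Wm H f α β i x = Wm H f α β i y := by
  induction i with
  | zero => rfl
  | succ i ih =>
    have h2 : Bm H f α β (Wm H f α β i x) x y := hxy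
    have h1 := ih (bm_sub h2).2
    funext z
    apply propext
    change Bm H f α β (Wm H f α β i x) x z ↔ Bm H f α β (Wm H f α β i y) y z
    rw [← h1]
    exact ⟨fun g => bm_trans h (bm_symm h h2) g, fun g => bm_trans h h2 g⟩

theorem nest [Finite V] (h : Cmp H f) : Nest (Wm H f α β) where
  self := wm_self
  sub := fun _ _ _ hxy => (bm_sub hxy).2
  eq := fun _ _ _ hxy => wm_eq h hxy
  ex := by
    intro x y hne
    by_contra hn
    push Not at hn
    have hall : ∀ i, Wm H f α β i x y := by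
      intro i
      induction i with
      | zero => trivial
      | succ i ih => exact hn i ih
    have hc : ∀ i, Set.ncard {z | Wm H f α β i x z} + i ≤ Set.ncard {z | Wm H f α β 0 x z} := by
      intro i
      induction i with
      | zero => exact le_rfl
      | succ i ih =>
        obtain ⟨z, h1, h2⟩ := bm_ne (α := α) (β := β) h (wm_self i x) (hall i) hne.symm
        have hlt : Set.ncard {z | Wm H f α β (i + 1) x z} < Set.ncard {z | Wm H f α β i x z} :=
          Set.ncard_lt_ncard ⟨fun w hw => (bm_sub hw).2, fun g => h2 (g h1)⟩ (Set.toFinite _)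
        omega
    have := hc (Set.ncard {z | Wm H f α β 0 x z} + 1)
    omega

end K

end P1346e8
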