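import Mathlib

/-!
# Ramsey's theorem for bipartite graphs
-/

set_option autoImplicit false

namespace P1346e8

namespace K

theorem ramsey (C : Type) [Fintype C] [DecidableEq C] (m : ℕ) : ∃ N : ℕ, ∀ (V : Type)
    (A B : Finset V) (χ : V → V → C), N ≤ A.card → N ≤ B.card → ∃ A' B' : Finset V, ∃ c : C,
      A' ⊆ A ∧ B' ⊆ B ∧ A'.card = m ∧ B'.card = m ∧ ∀ a ∈ A', ∀ b ∈ B', χ a b = c := by
  classical
  refine ⟨(Fintype.card C * m + 1) + (Fintype.card C ^ (Fintype.card C * m + 1) * m + 1), ?_⟩
  intro V A B χ hA hB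
  obtain ⟨A1, hA1, hA1c⟩ := Finset.exists_subset_card_eq
    (show Fintype.card C * m + 1 ≤ A.card by omega)
  have hcard : (Finset.univ : Finset (A1 → C)).card * m < B.card := by
    rw [Finset.card_univ, Fintype.card_fun, Fintype.card_coe, hA1c]
    omega
  obtain ⟨g, _, hg⟩ := Finset.exists_lt_card_fiber_of_mul_lt_card_of_maps_to
    (f := fun (b : V) (a : A1) => χ a.1 b) (s := B) (t := (Finset.univ : Finset (A1 → C)))
    (fun _ _ => Finset.mem_univ _) hcard
  have hcard2 : (Finset.univ : Finset C).card * m < (Finset.univ : Finset A1).card := by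
    rw [Finset.card_univ, Finset.card_univ, Fintype.card_coe, hA1c]
    omega
  obtain ⟨c, _, hc⟩ := Finset.exists_lt_card_fiber_of_mul_lt_card_of_maps_to
    (f := g) (s := (Finset.univ : Finset A1)) (t := (Finset.univ : Finset C))
    (fun _ _ => Finset.mem_univ _) hcard2
  have hc' : m ≤ ((Finset.univ.filter fun a : A1 => g a = c).image Subtype.val).card := by
    rw [Finset.card_image_of_injective _ Subtype.val_injective]
    exact hc.le
  obtain ⟨A', hA', hA'c⟩ := Finset.exists_subset_card_eq hc'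
  obtain ⟨B', hB', hB'c⟩ := Finset.exists_subset_card_eq hg.le
  refine ⟨A', B', c, ?_, ?_, hA'c, hB'c, ?_⟩
  · intro a ha
    have h1 := hA' ha
    rw [Finset.mem_image] at h1
    obtain ⟨a', _, rfl⟩ := h1
    exact hA1 a'.2
  · intro b hb
    exact (Finset.mem_filter.1 (hB' hb)).1
  · intro a ha b hb
    have h1 := hA' ha
    rw [Finset.mem_image] at h1
    obtain ⟨a', ha', rfl⟩ := h1
    have h2 := (Finset.mem_filter.1 ha').2
    have h3 := (Finset.mem_filter.1 (hB' hb)).2
    rw [← h2, ← h3]

end K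

end P1346e8
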