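import Pool.Agent.Lib.P1346K.Node
import Pool.Agent.Lib.P1346K.Ram

/-!
# The corners
-/

set_option autoImplicit false

namespace P1346e8

namespace K

open Q

variable {V : Type} {H f e e' : V → V → Prop} {W K Y M P : V → Prop} {s t R L : ℕ} {x y : V}
  {α β : (V → Prop) → Prop}

/-- Between different blocks of the node `W` there is no large complete bipartite graph of `e`. -/
def SpN (H f e : V → V → Prop) (α β : (V → Prop) → Prop) (t : ℕ) (W : V → Prop) : Prop :=
  ∀ A B : Finset V, A.Nonempty → B.Nonempty → (∀ a ∈ A, W a) → (∀ b ∈ B, W b) →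
    (∀ a ∈ A, ∀ a' ∈ A, a ≠ a' → ¬ Bm H f α β W a a') →
    (∀ b ∈ B, ∀ b' ∈ B, b ≠ b' → ¬ Bm H f α β W b b') →
    (∀ a ∈ A, ∀ b ∈ B, e a b ∧ ¬ Bm H f α β W a b) → t ≤ A.card → t ≤ B.card → False

theorem spn_series (h : Cmp H f) (hB : LabAll s t H f) (hR : R0 s t + 2 ≤ R)
    (hL : 2 * t + s + 2 ≤ L) (hW : Q.Mod H W) (hc : ¬ Conn f W)
    (hα : ∀ K, α K ↔ ¬ GT H H f R L K) : SpN H f f α β t W := by
  intro A B hA hB' hAW hBW hAA hBB hAB hAt hBt
  obtain ⟨a0, ha0⟩ := hA
  obtain ⟨b0, hb0⟩ := hB'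
  rw [bm_s h hc] at hAA hBB hAB
  have hcp : ∀ a ∈ A, ∀ b ∈ B, Cp f W a b := fun a ha b hb =>
    Cp.step (hAW a ha) (hBW b hb) (hAB a ha b hb).1
  have hKA : ∀ a ∈ A, Cp f W a0 a := fun a ha =>
    (hcp a0 ha0 b0 hb0).trans ((hcp a ha b0 hb0).symm h.sf)
  have hKB : ∀ b ∈ B, Cp f W a0 b := fun b hb => hcp a0 ha0 b hb
  have h1 : (Conn H (Cp f W a0) ∧ α (Cp f W a0)) ∧ ¬ SB f (Cp f W a0) a0 b0 := by
    by_contra hn
    exact (hAB a0 ha0 b0 hb0).2 ⟨hcp a0 ha0 b0 hb0, fun g => by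
      by_contra g'
      exact hn ⟨g, g'⟩⟩
  obtain ⟨⟨hKH, hαK⟩, hsb⟩ := h1
  have hKm := mod_cpf h hW a0
  have hKf : Conn f (Cp f W a0) := conn_cp h.sf
  have hne : a0 ≠ b0 := fun g => hsb (Or.inl g)
  have hsbK : ∀ u v, Cp f W a0 u → Cp f W a0 v →
      ¬ Bc f (fun K => Conn H K ∧ α K) W u v → ¬ SB f (Cp f W a0) u v := by
    intro u v hu hv hn g
    apply hn
    have e1 : Cp f W u = Cp f W a0 := (hu.eq h.sf).symm
    refine ⟨by rw [e1]; exact hv, fun _ => ?_⟩
    rw [e1]
    exact g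
  rcases hB _ hKm a0 b0 (Cp.refl (hAW a0 ha0)) (hKB b0 hb0) hne with hl | hl
  · exact (hα _).1 hαK (gt_of h hl hKm hKH hKf hR hL
      (fun z => formA h hW (cp_ne h.sf hc a0) L z))
  · refine ktt_K hl A B hKA hKB ?_ ?_ ?_ hAt hBt
    · intro a ha a' ha' haa
      exact hsbK a a' (hKA a ha) (hKA a' ha') (hAA a ha a' ha' haa)
    · intro b hb b' hb' hbb
      exact hsbK b b' (hKB b hb) (hKB b' hb') (hBB b hb b' hb' hbb)
    · intro a ha b hb
      exact ⟨(hAB a ha b hb).1, hsbK a b (hKA a ha) (hKB b hb) (hAB a ha b hb).2⟩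

theorem spn (h : Cmp H f) (hB : LabAll s t H f) (hR : R0 s t + 2 ≤ R)
    (hL : 2 * t + s + 2 ≤ L) (hW : Q.Mod H W)
    (hα : ∀ K, α K ↔ ¬ GT H H f R L K) (hβ : ∀ K, β K ↔ ¬ GT H f H R L K) (hx : W x) (hy : W y)
    (hne : x ≠ y) : SpN H f H α β t W ∨ SpN H f f α β t W := by
  by_cases hcf : Conn f W
  · by_cases hcH : Conn H W
    · rcases hB W hW x y hx hy hne with hl | hl
      · left
        intro A B _ _ hAW hBW hAA hBB hAB hAt hBt
        rw [bm_b hcH hcf] at hAA hBB hAB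
        exact ktt_K hl A B hAW hBW
          (fun a ha a' ha' haa g => hAA a ha a' ha' haa ⟨hAW a ha, hAW a' ha', g⟩)
          (fun a ha a' ha' haa g => hBB a ha a' ha' haa ⟨hBW a ha, hBW a' ha', g⟩)
          (fun a ha b hb => ⟨(hAB a ha b hb).1, fun g => (hAB a ha b hb).2
            ⟨hAW a ha, hBW b hb, g⟩⟩) hAt hBt
      · right
        intro A B _ _ hAW hBW hAA hBB hAB hAt hBt
        rw [bm_b hcH hcf] at hAA hBB hAB
        exact ktt_K hl A B hAW hBW
          (fun a ha a' ha' haa g => hAA a ha a' ha' haa ⟨hAW a ha, hAW a' ha', cp_sb_cmp h.symm g⟩)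
          (fun a ha a' ha' haa g => hBB a ha a' ha' haa ⟨hBW a ha, hBW a' ha', cp_sb_cmp h.symm g⟩)
          (fun a ha b hb => ⟨(hAB a ha b hb).1, fun g => (hAB a ha b hb).2
            ⟨hAW a ha, hBW b hb, cp_sb_cmp h.symm g⟩⟩) hAt hBt
    · left
      have h1 := spn_series (α := β) (β := α) h.symm (hB.symm h) hR hL (mod_cmp h hW) hcH
        (fun K => (hβ K).trans (not_congr (gt_cmp h).symm))
      unfold SpN at h1 ⊢
      rw [bm_swap h] at h1
      exact h1
  · right
    exact spn_series h hB hR hL hW hcf hα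

/-- The corner relation contains no large complete bipartite graph. -/
theorem corner_free (s t : ℕ) : ∃ T : ℕ, ∀ (V : Type) (_ : Finite V) (H f : V → V → Prop)
    (_ : Cmp H f) (_ : LabAll s t H f) (R L : ℕ) (_ : R0 s t + 2 ≤ R) (_ : 2 * t + s + 2 ≤ L)
    (ν : V → ℕ) (_ : ∀ a b, ν a = ν b → a = b),
    BicliqueFree T (Corner (fun _ => True)
      (Rr (Wm H f (fun K => ¬ GT H H f R L K) (fun K => ¬ GT H f H R L K)) ν) (fun _ => True)
      (Rr (Wm H f (fun K => ¬ GT H H f R L K) (fun K => ¬ GT H f H R L K)) ν) H) := by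
  classical
  obtain ⟨N2, hN2⟩ := ramsey (Bool × Bool) (2 * t + 2)
  obtain ⟨N1, hN1⟩ := ramsey (Fin 3) (N2 + 3)
  refine ⟨N1 + 1, ?_⟩
  intro V _ H f h hB R L hR hL ν hνi
  set α : (V → Prop) → Prop := fun K => ¬ GT H H f R L K with hα
  set β : (V → Prop) → Prop := fun K => ¬ GT H f H R L K with hβ
  have hW : Nest (Wm H f α β) := nest h
  rintro ⟨p, q, hp, hq, hC⟩
  -- the next elements and the levels
  have hx1 : ∀ a, a ∈ Finset.univ.image p → ∃ a' i, Nx (Wm H f α β) ν a a' ∧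
      Sp (Wm H f α β) i a a' := by
    intro a ha
    rw [Finset.mem_image] at ha
    obtain ⟨k, _, rfl⟩ := ha
    obtain ⟨x', _, hx', _⟩ := hC k 0
    obtain ⟨i, hi⟩ := hW.ex (p k) x' (fun g => by
      have := hx'.2.2.1
      rw [← g] at this
      exact rr_irrefl hW _ this)
    exact ⟨x', i, hx', hi⟩
  have hx2 : ∀ a, a ∈ Finset.univ.image q → ∃ a' i, Nx (Wm H f α β) ν a a' ∧
      Sp (Wm H f α β) i a a' := by
    intro a ha
    rw [Finset.mem_image] at ha
    obtain ⟨k, _, rfl⟩ := ha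
    obtain ⟨_, y', _, hy', _⟩ := hC 0 k
    obtain ⟨i, hi⟩ := hW.ex (q k) y' (fun g => by
      have := hy'.2.2.1
      rw [← g] at this
      exact rr_irrefl hW _ this)
    exact ⟨y', i, hy', hi⟩
  have hx3 : ∀ a, ∃ (a' : V) (i : ℕ), (a ∈ Finset.univ.image p ∨ a ∈ Finset.univ.image q) →
      Nx (Wm H f α β) ν a a' ∧ Sp (Wm H f α β) i a a' := by
    intro a
    by_cases ha : a ∈ Finset.univ.image p ∨ a ∈ Finset.univ.image q
    · rcases ha with ha | ha
      · obtain ⟨a', i, g⟩ := hx1 a ha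
        exact ⟨a', i, fun _ => g⟩
      · obtain ⟨a', i, g⟩ := hx2 a ha
        exact ⟨a', i, fun _ => g⟩
    · exact ⟨a, 0, fun g => absurd g ha⟩
  choose nx lv hnx using hx3
  set A0 : Finset V := Finset.univ.image p with hA0
  set B0 : Finset V := Finset.univ.image q with hB0
  have hA0c : A0.card = N1 + 1 := by
    rw [hA0, Finset.card_image_of_injective _ hp, Finset.card_univ, Fintype.card_fin]
  have hB0c : B0.card = N1 + 1 := by
    rw [hB0, Finset.card_image_of_injective _ hq, Finset.card_univ, Fintype.card_fin]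
  have hcor : ∀ a ∈ A0, ∀ b ∈ B0, ¬ ((H a b ↔ H (nx a) b) ∧ (H a (nx b) ↔ H (nx a) (nx b))) ∧
      ¬ ((H a b ↔ H a (nx b)) ∧ (H (nx a) b ↔ H (nx a) (nx b))) := by
    intro a ha b hb
    have ha' := ha
    have hb' := hb
    rw [hA0, Finset.mem_image] at ha'
    rw [hB0, Finset.mem_image] at hb'
    obtain ⟨k, _, rfl⟩ := ha'
    obtain ⟨l, _, rfl⟩ := hb'
    obtain ⟨x', y', g1, g2, g3, g4⟩ := hC k l
    have e1 : x' = nx (p k) := nx_uniq hW hνi g1 (hnx _ (Or.inl ha)).1
    have e2 : y' = nx (q l) := nx_uniq hW hνi g2 (hnx _ (Or.inr hb)).1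
    subst e1 e2
    exact ⟨g3, g4⟩
  -- the kinds
  let K1 : V → V → Prop := fun a b => lv a = lv b ∧ Wm H f α β (lv a) a b
  let K2 : V → V → Prop := fun a b =>
    (Wm H f α β (lv b) b a ∧ ¬ Wm H f α β (lv b) b (nx a)) ∨
      (¬ Wm H f α β (lv b) b a ∧ Wm H f α β (lv b) b (nx a))
  let K3 : V → V → Prop := fun a b =>
    (Wm H f α β (lv a) a b ∧ ¬ Wm H f α β (lv a) a (nx b)) ∨
      (¬ Wm H f α β (lv a) a b ∧ Wm H f α β (lv a) a (nx b))
  have hkinds : ∀ a ∈ A0, ∀ b ∈ B0, K1 a b ∨ K2 a b ∨ K3 a b := by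
    intro a ha b hb
    obtain ⟨g1, g2⟩ := hcor a ha b hb
    exact kinds hW h.se (wm_mod h) (hnx a (Or.inl ha)).2 (hnx b (Or.inr hb)).2 g1 g2
  obtain ⟨A1, B1, c1, hA1, hB1, hA1c, hB1c, hχ1⟩ := hN1 V A0 B0
    (fun a b => if K1 a b then 0 else if K2 a b then 1 else 2) (by omega) (by omega)
  have hK1 : ∀ a ∈ A1, ∀ b ∈ B1, K1 a b := by
    obtain ⟨a0, ha0⟩ : A1.Nonempty := by
      rw [← Finset.card_pos]
      omega
    obtain ⟨b0, hb0⟩ : B1.Nonempty := by
      rw [← Finset.card_pos]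
      omega
    by_cases hk : K1 a0 b0
    · intro a ha b hb
      by_contra hn
      have e1 := hχ1 a0 ha0 b0 hb0
      have e2 := hχ1 a ha b hb
      rw [if_pos hk] at e1
      rw [if_neg hn, ← e1] at e2
      by_cases hk2 : K2 a b
      · rw [if_pos hk2] at e2
        exact absurd e2 (by decide)
      · rw [if_neg hk2] at e2
        exact absurd e2 (by decide)
    exfalso
    by_cases hk2 : K2 a0 b0
    · have hall : ∀ a ∈ A1, K2 a b0 := by
        intro a ha
        by_contra hn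
        have e1 := hχ1 a0 ha0 b0 hb0
        have e2 := hχ1 a ha b0 hb0
        rw [if_neg hk, if_pos hk2] at e1
        rw [if_neg hn, ← e1] at e2
        by_cases hk1 : K1 a b0
        · rw [if_pos hk1] at e2
          exact absurd e2 (by decide)
        · rw [if_neg hk1] at e2
          exact absurd e2 (by decide)
      have := edge_card hW hνi (i := lv b0) (z := b0) A1 (fun a ha =>
        ⟨nx a, (hnx a (Or.inl (hA1 ha))).1, hall a ha⟩)
      omega
    · have hall : ∀ b ∈ B1, K3 a0 b := by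
        intro b hb
        have e1 := hχ1 a0 ha0 b0 hb0
        have e2 := hχ1 a0 ha0 b hb
        rw [if_neg hk, if_neg hk2] at e1
        rcases hkinds a0 (hA1 ha0) b (hB1 hb) with g | g | g
        · rw [if_pos g, ← e1] at e2
          exact absurd e2 (by decide)
        · by_cases hk1 : K1 a0 b
          · rw [if_pos hk1, ← e1] at e2
            exact absurd e2 (by decide)
          · rw [if_neg hk1, if_pos g, ← e1] at e2
            exact absurd e2 (by decide)
        · exact g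
      have := edge_card hW hνi (i := lv a0) (z := a0) B1 (fun b hb =>
        ⟨nx b, (hnx b (Or.inr (hB1 hb))).1, hall b hb⟩)
      omega
  -- the node
  obtain ⟨a0, ha0⟩ : A1.Nonempty := by
    rw [← Finset.card_pos]
    omega
  obtain ⟨b0, hb0⟩ : B1.Nonempty := by
    rw [← Finset.card_pos]
    omega
  obtain ⟨i, hi⟩ : ∃ i, i = lv a0 := ⟨_, rfl⟩
  have hlvB : ∀ b ∈ B1, lv b = i ∧ Wm H f α β i a0 b := by
    intro b hb
    obtain ⟨g1, g2⟩ := hK1 a0 ha0 b hb
    rw [← hi] at g1 g2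
    exact ⟨g1.symm, g2⟩
  have hlvA : ∀ a ∈ A1, lv a = i ∧ Wm H f α β i a0 a := by
    intro a ha
    obtain ⟨g1, g2⟩ := hK1 a ha b0 hb0
    obtain ⟨g3, g4⟩ := hlvB b0 hb0
    rw [g1, g3] at g2
    exact ⟨g1.trans g3, hW.trans g4 (hW.symm g2)⟩
  have hnA : ∀ a ∈ A1, Nx (Wm H f α β) ν a (nx a) ∧ Sp (Wm H f α β) i a (nx a) := by
    intro a ha
    have h1 := hnx a (Or.inl (hA1 ha))
    rw [(hlvA a ha).1] at h1
    exact h1
  have hnB : ∀ b ∈ B1, Nx (Wm H f α β) ν b (nx b) ∧ Sp (Wm H f α β) i b (nx b) := by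
    intro b hb
    have h1 := hnx b (Or.inr (hB1 hb))
    rw [(hlvB b hb).1] at h1
    exact h1
  have hbm : ∀ a b, Wm H f α β i a0 a → (Bm H f α β (Wm H f α β i a0) a b ↔
      Wm H f α β (i + 1) a b) := by
    intro a b ha
    rw [wm_succ, hW.eq i a0 a ha]
  -- the main part for one of the two graphs
  have main : ∀ e : V → V → Prop, SpN H f e α β t (Wm H f α β i a0) →
      ∀ Ee : V → V → Prop, (∀ a b, Ee a b → a ≠ b → e a b) →
      (∀ a ∈ A1, ∀ b ∈ B1, Ee a b ∨ Ee a (nx b) ∨ Ee (nx a) b ∨ Ee (nx a) (nx b)) → False := by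
    intro e hsp Ee hEe hex
    have hσ : ∀ a b, ∃ σ : Bool × Bool, a ∈ A1 → b ∈ B1 →
        Ee (if σ.1 then a else nx a) (if σ.2 then b else nx b) := by
      intro a b
      by_cases hab : a ∈ A1 ∧ b ∈ B1
      · rcases hex a hab.1 b hab.2 with g | g | g | g
        · exact ⟨(true, true), fun _ _ => by simpa using g⟩
        · exact ⟨(true, false), fun _ _ => by simpa using g⟩
        · exact ⟨(false, true), fun _ _ => by simpa using g⟩
        · exact ⟨(false, false), fun _ _ => by simpa using g⟩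
      · exact ⟨(true, true), fun g1 g2 => absurd ⟨g1, g2⟩ hab⟩
    choose σ hσ using hσ
    obtain ⟨A2, B2, c2, hA2, hB2, hA2c, hB2c, hχ2⟩ := hN2 V A1 B1 σ (by omega) (by omega)
    let ra : V → V := fun a => if c2.1 then a else nx a
    let rb : V → V := fun b => if c2.2 then b else nx b
    have hE : ∀ a ∈ A2, ∀ b ∈ B2, Ee (ra a) (rb b) := by
      intro a ha b hb
      have h1 := hσ a b (hA2 ha) (hB2 hb)
      rw [hχ2 a ha b hb] at h1
      exact h1
    have hraW : ∀ a ∈ A2, Wm H f α β i a0 (ra a) := by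
      intro a ha
      have h1 := (hlvA a (hA2 ha)).2
      by_cases hc : c2.1 = true
      · have : ra a = a := if_pos hc
        rw [this]
        exact h1
      · have : ra a = nx a := if_neg hc
        rw [this]
        exact hW.trans h1 (hnA a (hA2 ha)).2.1
    have hrbW : ∀ b ∈ B2, Wm H f α β i a0 (rb b) := by
      intro b hb
      have h1 := (hlvB b (hB2 hb)).2
      by_cases hc : c2.2 = true
      · have : rb b = b := if_pos hc
        rw [this]
        exact h1
      · have : rb b = nx b := if_neg hc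
        rw [this]
        exact hW.trans h1 (hnB b (hB2 hb)).2.1
    have hraI : ∀ a ∈ A2, ∀ a' ∈ A2, Wm H f α β (i + 1) (ra a) (ra a') → a = a' := by
      intro a ha a' ha' hw
      obtain ⟨g1, g2⟩ := hnA a (hA2 ha)
      obtain ⟨g3, g4⟩ := hnA a' (hA2 ha')
      by_cases hc : c2.1 = true
      · have e1 : ra a = a := if_pos hc
        have e2 : ra a' = a' := if_pos hc
        rw [e1, e2] at hw
        exact last_uniq hW hνi g1 g2.2 g3 g4.2 hw
      · have e1 : ra a = nx a := if_neg hc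
        have e2 : ra a' = nx a' := if_neg hc
        rw [e1, e2] at hw
        exact first_uniq hW hνi g1 g2.2 g3 g4.2 hw
    have hrbI : ∀ a ∈ B2, ∀ a' ∈ B2, Wm H f α β (i + 1) (rb a) (rb a') → a = a' := by
      intro a ha a' ha' hw
      obtain ⟨g1, g2⟩ := hnB a (hB2 ha)
      obtain ⟨g3, g4⟩ := hnB a' (hB2 ha')
      by_cases hc : c2.2 = true
      · have e1 : rb a = a := if_pos hc
        have e2 : rb a' = a' := if_pos hc
        rw [e1, e2] at hw
        exact last_uniq hW hνi g1 g2.2 g3 g4.2 hw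
      · have e1 : rb a = nx a := if_neg hc
        have e2 : rb a' = nx a' := if_neg hc
        rw [e1, e2] at hw
        exact first_uniq hW hνi g1 g2.2 g3 g4.2 hw
    have hinjA : Set.InjOn ra (A2 : Set V) := by
      intro a ha a' ha' haa
      refine hraI a ha a' ha' ?_
      rw [haa]
      exact hW.self _ _
    have hinjB : Set.InjOn rb (B2 : Set V) := by
      intro a ha a' ha' haa
      refine hrbI a ha a' ha' ?_
      rw [haa]
      exact hW.self _ _
    obtain ⟨A3, hA3, hA3c⟩ := Finset.exists_subset_card_eq (show t + 1 ≤ A2.card by omega)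
    let bad : V → Prop := fun b => ∃ a ∈ A3, Wm H f α β (i + 1) (ra a) (rb b)
    have hbadc : (B2.filter bad).card ≤ t + 1 := by
      have h2 : (B2.filter bad) ⊆
          A3.biUnion fun a => B2.filter fun b => Wm H f α β (i + 1) (ra a) (rb b) := by
        intro b hb
        rw [Finset.mem_filter] at hb
        obtain ⟨hb, a, ha, hab⟩ := hb
        exact Finset.mem_biUnion.2 ⟨a, ha, Finset.mem_filter.2 ⟨hb, hab⟩⟩
      have h3 : ∀ a ∈ A3, (B2.filter fun b => Wm H f α β (i + 1) (ra a) (rb b)).card ≤ 1 := by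
        intro a _
        rw [Finset.card_le_one]
        intro b hb b' hb'
        rw [Finset.mem_filter] at hb hb'
        exact hrbI b hb.1 b' hb'.1 (hW.trans (hW.symm hb.2) hb'.2)
      have h4 := (Finset.card_le_card h2).trans (Finset.card_biUnion_le_card_mul _ _ _ h3)
      rw [hA3c] at h4
      omega
    have h5 := Finset.card_filter_add_card_filter_not (s := B2) bad
    have hB3 : (B2.filter fun b => ¬ bad b) ⊆ B2 := Finset.filter_subset _ _
    have hcA : (A3.image ra).card = t + 1 := by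
      rw [Finset.card_image_of_injOn (hinjA.mono (fun a ha => hA3 ha)), hA3c]
    have hcB : t + 1 ≤ ((B2.filter fun b => ¬ bad b).image rb).card := by
      rw [Finset.card_image_of_injOn (hinjB.mono (fun a ha => hB3 ha))]
      omega
    refine hsp (A3.image ra) ((B2.filter fun b => ¬ bad b).image rb) ?_ ?_ ?_ ?_ ?_ ?_ ?_
      (by omega) (by omega)
    · rw [← Finset.card_pos]
      omega
    · rw [← Finset.card_pos]
      omega
    · intro a ha
      rw [Finset.mem_image] at ha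
      obtain ⟨a', ha', rfl⟩ := ha
      exact hraW a' (hA3 ha')
    · intro a ha
      rw [Finset.mem_image] at ha
      obtain ⟨a', ha', rfl⟩ := ha
      exact hrbW a' (hB3 ha')
    · intro a ha b hb hab
      rw [Finset.mem_image] at ha hb
      obtain ⟨a', ha', rfl⟩ := ha
      obtain ⟨b', hb', rfl⟩ := hb
      rw [hbm _ _ (hraW a' (hA3 ha'))]
      intro g
      exact hab (by rw [hraI a' (hA3 ha') b' (hA3 hb') g])
    · intro a ha b hb hab
      rw [Finset.mem_image] at ha hb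
      obtain ⟨a', ha', rfl⟩ := ha
      obtain ⟨b', hb', rfl⟩ := hb
      rw [hbm _ _ (hrbW a' (hB3 ha'))]
      intro g
      exact hab (by rw [hrbI a' (hB3 ha') b' (hB3 hb') g])
    · intro a ha b hb
      rw [Finset.mem_image] at ha hb
      obtain ⟨a', ha', rfl⟩ := ha
      obtain ⟨b', hb', rfl⟩ := hb
      have hnw : ¬ Wm H f α β (i + 1) (ra a') (rb b') := fun g =>
        (Finset.mem_filter.1 hb').2 ⟨a', ha', g⟩
      rw [hbm _ _ (hraW a' (hA3 ha'))]
      refine ⟨hEe _ _ (hE a' (hA3 ha') b' (hB3 hb')) ?_, hnw⟩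
      intro g
      rw [g] at hnw
      exact hnw (hW.self _ _)
  have hsepA := (hnA a0 ha0).2
  rcases spn (α := α) (β := β) h hB hR hL (wm_mod h i a0) (fun K => Iff.rfl) (fun K => Iff.rfl)
    (wm_self i a0) hsepA.1 (hsepA.ne hW) with hsp | hsp
  · refine main H hsp H (fun _ _ g _ => g) ?_
    intro a ha b hb
    by_contra hn
    push Not at hn
    exact (hcor a (hA1 ha) b (hB1 hb)).1 ⟨iff_of_false hn.1 hn.2.2.1,
      iff_of_false hn.2.1 hn.2.2.2⟩
  · refine main f hsp (fun a b => ¬ H a b) (fun a b g hab => (h.symm.ef a b hab).2 g) ?_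
    intro a ha b hb
    by_contra hn
    push Not at hn
    exact (hcor a (hA1 ha) b (hB1 hb)).1 ⟨iff_of_true hn.1 hn.2.2.1,
      iff_of_true hn.2.1 hn.2.2.2⟩

end K

end P1346e8
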