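import Pool.Agent.Lib.P1346K.Tm
import Pool.Agent.Lib.P1346Q.DefQ

/-!
# The order is first-order definable
-/

set_option autoImplicit false

namespace P1346e8

namespace K

open Q

universe u

variable {ι : Type u} {β υ : Type} {F : Fam ι β υ} {H e e' f lt : (i : ι) → F.X i → F.X i → Prop}
  {R L : ℕ}

theorem def3_Me (hH : F.Def2 H) (he : F.Def2 e) (R L : ℕ) :
    F.Def3 (fun i => Me (H i) (e i) R L) := def3_Form he (def3_Dn hH he R) L

theorem def2_ModMe (hH : F.Def2 H) (he : F.Def2 e) (R L : ℕ) :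
    F.Def2 (fun i x y => Q.Mod (H i) (Me (H i) (e i) R L x y)) :=
  Fam.Def.all (Fam.Def.all (Fam.Def.all
    (Fam.Def.imp (Fam.Def3.at (def3_Me hH he R L) _ _ _)
      (Fam.Def.imp (Fam.Def3.at (def3_Me hH he R L) _ _ _)
        (Fam.Def.imp (Fam.Def.not (Fam.Def3.at (def3_Me hH he R L) _ _ _))
          (Fam.Def.imp (Fam.Def2.at hH _ _) (Fam.Def2.at hH _ _)))))))

theorem def2_Gd (hH : F.Def2 H) (he : F.Def2 e) (he' : F.Def2 e') (R L : ℕ) :
    F.Def2 (fun i => Gd (H i) (e i) (e' i) R L) :=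
  Fam.Def.and (Fam.Def3.at (def3_PtS hH he' R L) _ _ _)
    (Fam.Def.and (Fam.Def2.at (def2_ModMe hH he R L) _ _)
      (Fam.Def.and (Fam.Def3.at (def3_Me hH he R L) _ _ _)
        (Fam.Def3.at (def3_Me hH he R L) _ _ _)))

theorem def2_Sg (hH : F.Def2 H) (he : F.Def2 e) (he' : F.Def2 e') (R L : ℕ) :
    F.Def2 (fun i => Sg (H i) (e i) (e' i) R L) :=
  Fam.Def.and (Fam.Def2.at (def2_Gd hH he he' R L) _ _)
    (Fam.Def.not (Fam.Def.ex (Fam.Def.ex
      (Fam.Def.and (Fam.Def.not (Fam.Def.eq _ _ _))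
        (Fam.Def.and (Fam.Def3.at (def3_Me hH he R L) _ _ _)
          (Fam.Def.and (Fam.Def3.at (def3_Me hH he R L) _ _ _)
            (Fam.Def.and (Fam.Def.not (Fam.Def2.at (def2_Gd hH he he' R L) _ _))
              (Fam.Def.and (Fam.Def2.at (def2_Gd hH he' he R L) _ _)
                (Fam.Def.and (Fam.Def3.at (def3_Me hH he' R L) _ _ _)
                  (Fam.Def3.at (def3_Me hH he' R L) _ _ _))))))))))

theorem def3_Tm (hH : F.Def2 H) (hf : F.Def2 f) (R L : ℕ) :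
    F.Def3 (fun i => Tm (H i) (f i) R L) :=
  Fam.Def.and
    (Fam.Def.imp (Fam.Def2.at (def2_Sg hH hH hf R L) _ _) (Fam.Def3.at (def3_Me hH hH R L) _ _ _))
    (Fam.Def.imp (Fam.Def2.at (def2_Sg hH hf hH R L) _ _) (Fam.Def3.at (def3_Me hH hf R L) _ _ _))

theorem def3_Kt {T : (i : ι) → F.X i → F.X i → F.X i → Prop} (hT : F.Def3 T) :
    F.Def3 (fun i => Kt (T i)) :=
  Fam.Def.or (Fam.Def.eq _ _ _) (Fam.Def.not (Fam.Def3.at hT _ _ _))

theorem def2_rhoT {T : (i : ι) → F.X i → F.X i → F.X i → Prop} (hT : F.Def3 T)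
    (hl : F.Def2 lt) : F.Def2 (fun i => rhoT (T i) (lt i)) :=
  Fam.Def.and (Fam.Def.not (Fam.Def.eq _ _ _))
    (Fam.Def.ex (Fam.Def.and (Fam.Def3.at (def3_Kt hT) _ _ _)
      (Fam.Def.all (Fam.Def.imp (Fam.Def3.at (def3_Kt hT) _ _ _)
        (Fam.Def2.at hl _ _)))))

end K

end P1346e8
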