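import Pool.Agent.Lib.P1346Q.Defs

/-!
# Graphs whose quotients contain, up to complementation, neither a large complete bipartite graph nor a long
induced fan
-/

set_option autoImplicit false

namespace P1346e8

/-- The quotient graph of `H` on the blocks of `W`: two different blocks are adjacent if some elements are. -/
def quotGraph {V : Type} (H : V → V → Prop) (W : V → Prop) (b : V → ℕ) (n m : ℕ) : Prop :=
  n ≠ m ∧ ∃ u v, W u ∧ W v ∧ b u = n ∧ b v = m ∧ H u v

/-- `q` has no induced fan on `s + 1` vertices: a vertex `d` adjacent to all vertices of an induced path on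
`s` vertices. -/
def FanFree (s : ℕ) (q : ℕ → ℕ → Prop) : Prop :=
  ¬ ∃ (d : ℕ) (p : Fin s → ℕ), Function.Injective p ∧ (∀ i, q d (p i)) ∧
    ∀ i j, q (p i) (p j) ↔ (i.val + 1 = j.val ∨ j.val + 1 = i.val)

/-- Every set `W` of at least two vertices can be divided into at least two blocks such that the adjacency
between any two different blocks is constant and the quotient graph of the edges (`c` true) or that of the
non-edges (`c` false) contains no `K_{t,t}` and no induced fan on `s + 1` vertices. -/
def MixDec {V : Type} (s t : ℕ) (H : V → V → Prop) : Prop :=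
  ∀ W : V → Prop, (∃ u v, W u ∧ W v ∧ u ≠ v) → ∃ b : V → ℕ, (∃ u v, W u ∧ W v ∧ b u ≠ b v) ∧
    (∀ u u' v v', W u → W u' → W v → W v' → b u = b u' → b v = b v' → b u ≠ b v →
      (H u v ↔ H u' v')) ∧
    ∃ c : Prop, BicliqueFree t (quotGraph (fun u v => H u v ↔ c) W b) ∧
      FanFree s (quotGraph (fun u v => H u v ↔ c) W b)

end P1346e8
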