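import Pool.Agent.Lib.P1346K.Lay

/-!
# No block is adjacent to the whole closure
-/

set_option autoImplicit false

namespace P1346e8

namespace K

open Q

variable {V : Type} {H f e : V → V → Prop} {W K : V → Prop} {s t : ℕ} {x y : V}

theorem cl_mono {n : ℕ} {z : V} (hz : Cl H n x y z) : Cl H (n + 1) x y z := Or.inl hz

theorem cl_mono' {n m : ℕ} (hnm : n ≤ m) {z : V} (hz : Cl H n x y z) : Cl H m x y z := by
  induction hnm with
  | refl => exact hz
  | step _ ih => exact cl_mono ih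

theorem cl_ends (n : ℕ) (x y : V) : Cl H n x y x ∧ Cl H n x y y :=
  ⟨cl_mono' (Nat.zero_le n) (Or.inl rfl), cl_mono' (Nat.zero_le n) (Or.inr rfl)⟩

theorem cl_sub (h : Cmp H f) (hW : Q.Mod H W) (hx : W x) (hy : W y) :
    ∀ n z, Cl H n x y z → W z := by
  intro n
  induction n with
  | zero =>
    rintro z (rfl | rfl)
    · exact hx
    · exact hy
  | succ n ih =>
    rintro z (hz | ⟨a, ha, hza, b, hb, hzb⟩)
    · exact ih z hz
    · by_contra hn
      exact hzb (h.se _ _ (hW a b z (ih a ha) (ih b hb) hn (h.se _ _ hza)))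

/-- The elements of `K` adjacent to the whole closure. -/
def Qn (H : V → V → Prop) (K : V → Prop) (n : ℕ) (x y q : V) : Prop :=
  K q ∧ ∀ c, Cl H n x y c → H q c

theorem qn_mono {n m : ℕ} (hnm : n ≤ m) {q : V} (hq : Qn H K m x y q) : Qn H K n x y q :=
  ⟨hq.1, fun c hc => hq.2 c (cl_mono' hnm hc)⟩

/-- There is an element in a new block on the next stage. -/
theorem new_blk (h : Cmp H f) (hK : Q.Mod H K) (hKe : Conn H K) (hKf : Conn f K)
    (hx : K x) (hy : K y) (hxy : ¬ SB H K x y) (m : ℕ) {d : V} (hd : Qn H K m x y d) :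
    ∃ z, K z ∧ (∀ c, Cl H m x y c → ¬ SB H K c z) ∧ (∃ b, Cl H m x y b ∧ H z b) ∧
      ∃ b, Cl H m x y b ∧ ¬ H z b := by
  have hcK : ∀ c, Cl H m x y c → K c := fun c hc => cl_sub h hK hx hy m c hc
  let U : V → Prop := fun z => K z ∧ ∃ c, Cl H m x y c ∧ SB H K c z
  obtain ⟨w0, hw0, hw0'⟩ : ∃ w, K w ∧ ¬ U w := by
    by_contra hn
    push Not at hn
    obtain ⟨v, hv, hdv⟩ : ∃ w, K w ∧ ¬ SB H K d w := by
      by_cases hdx : SB H K d x
      · exact ⟨y, hy, fun g => hxy (sb_trans h hKe hKf (sb_symm hdx) g)⟩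
      · exact ⟨x, hx, hdx⟩
    obtain ⟨a, b, ha, hA, hb, hB', hab⟩ := conn_cut hKf (fun z => SB H K d z) hd.1 hv
      (Or.inl rfl) hdv
    have hdb : ¬ H d b := by
      intro g
      exact (h.ef a b (h.ne_f hab)).1 ((blk_adj h hKe hKf hd.1 ha hA hB').1 g) hab
    obtain ⟨_, c, hc, hcb⟩ := hn b hb
    have hcd : ¬ SB H K c d := fun g => hB' (sb_trans h hKe hKf (sb_symm g) hcb)
    exact hdb (h.se _ _ ((blk_adj h hKe hKf (hcK c hc) hb hcb hcd).1 (h.se _ _ (hd.2 c hc))))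
  have hU : ¬ Q.Mod H U := by
    intro hm
    exact hxy (Or.inr ⟨U, hm, ⟨hx, x, (cl_ends m x y).1, Or.inl rfl⟩,
      ⟨hy, y, (cl_ends m x y).2, Or.inl rfl⟩, fun z hz => hz.1, w0, hw0, hw0'⟩)
  unfold Q.Mod at hU
  push Not at hU
  obtain ⟨u1, u2, z, ⟨k1, b1, hb1, s1⟩, ⟨k2, b2, hb2, s2⟩, hz, e1, e2⟩ := hU
  have hzK : K z := by
    by_contra hn
    exact e2 (hK u1 u2 z k1 k2 hn e1)
  have hzB : ∀ c, Cl H m x y c → ¬ SB H K c z := fun c hc g => hz ⟨hzK, c, hc, g⟩
  refine ⟨z, hzK, hzB, ⟨b1, hb1, ?_⟩, b2, hb2, ?_⟩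
  · exact h.se _ _ ((blk_adj h hKe hKf (hcK b1 hb1) k1 s1 (hzB b1 hb1)).2 e1)
  · exact fun g => e2 ((blk_adj h hKe hKf (hcK b2 hb2) k2 s2 (hzB b2 hb2)).1 (h.se _ _ g))

theorem cl_new {m : ℕ} {z : V} (h1 : ∃ b, Cl H m x y b ∧ H z b) (h2 : ∃ b, Cl H m x y b ∧ ¬ H z b) :
    Cl H (m + 1) x y z := by
  obtain ⟨a, ha, hza⟩ := h1
  obtain ⟨b, hb, hzb⟩ := h2
  exact Or.inr ⟨a, ha, hza, b, hb, hzb⟩

/-- Growth of the number of blocks. -/
theorem grow (h : Cmp H f) (hK : Q.Mod H K) (hKe : Conn H K) (hKf : Conn f K)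
    (hx : K x) (hy : K y) (hxy : ¬ SB H K x y) (m : ℕ) {d : V} (hd : Qn H K m x y d) :
    ∃ B : Finset V, (∀ b ∈ B, K b ∧ Cl H m x y b) ∧ Ind H K B ∧ B.card = m + 2 := by
  classical
  induction m with
  | zero =>
    have hne : x ≠ y := fun g => hxy (Or.inl g)
    refine ⟨{x, y}, ?_, ?_, ?_⟩
    · intro b hb
      rw [Finset.mem_insert, Finset.mem_singleton] at hb
      rcases hb with rfl | rfl
      · exact ⟨hx, Or.inl rfl⟩
      · exact ⟨hy, Or.inr rfl⟩
    · intro b hb b' hb' hbb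
      rw [Finset.mem_insert, Finset.mem_singleton] at hb hb'
      rcases hb with rfl | rfl <;> rcases hb' with rfl | rfl
      · exact absurd rfl hbb
      · exact hxy
      · exact fun g => hxy (sb_symm g)
      · exact absurd rfl hbb
    · rw [Finset.card_pair hne]
  | succ m ih =>
    have hd' := qn_mono (Nat.le_succ m) hd
    obtain ⟨B, h1, h2, h3⟩ := ih hd'
    obtain ⟨z, g1, g2, g3, g4⟩ := new_blk h hK hKe hKf hx hy hxy m hd'
    have hzB : z ∉ B := fun g => g2 z (h1 z g).2 (Or.inl rfl)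
    refine ⟨insert z B, ?_, h2.insert fun b hb => g2 b (h1 b hb).2, ?_⟩
    · intro b hb
      rw [Finset.mem_insert] at hb
      rcases hb with rfl | hb
      · exact ⟨g1, cl_new g3 g4⟩
      · exact ⟨(h1 b hb).1, cl_mono (h1 b hb).2⟩
    · rw [Finset.card_insert_of_notMem hzB, h3]

/-- The set of the dominating blocks cannot be constant for long. -/
theorem no_const (h : Cmp H f) (hl : Lab s t H K) (hK : Q.Mod H K) (hKe : Conn H K)
    (hKf : Conn f K) (hx : K x) (hy : K y) (hxy : ¬ SB H K x y) (n : ℕ)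
    (hc : ∀ q, Qn H K n x y q → ∃ q', Qn H K (n + (s + 1)) x y q' ∧ SB H K q q') {d : V}
    (hd : Qn H K (n + (s + 1)) x y d) : False := by
  have hne : x ≠ y := fun g => hxy (Or.inl g)
  have hcK : ∀ m c, Cl H m x y c → K c := fun m c hc => cl_sub h hK hx hy m c hc
  let D : ℕ → V → Prop := fun j v => K v ∧ ∃ c, Cl H (n + j) x y c ∧ SB H K c v
  let g : V → V → Prop := fun v u => K v ∧ H v u ∧ ¬ Qn H K n x y v
  have hstep : ∀ j v u, g v u → D j u → D (j + 1) v := by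
    rintro j v u ⟨hv, hvu, hq⟩ ⟨hu, c, hc1, hc2⟩
    refine ⟨hv, ?_⟩
    by_cases hcv : SB H K c v
    · exact ⟨c, cl_mono hc1, hcv⟩
    · have hcv' : H c v := (blk_adj h hKe hKf (hcK _ c hc1) hu hc2 hcv).2 (h.se _ _ hvu)
      have hq' : ∃ c', Cl H n x y c' ∧ ¬ H v c' := by
        by_contra hn
        push Not at hn
        exact hq ⟨hv, hn⟩
      obtain ⟨c', h1, h2⟩ := hq'
      exact ⟨v, cl_new (m := n + j) ⟨c, hc1, h.se _ _ hcv'⟩
        ⟨c', cl_mono' (Nat.le_add_right n j) h1, h2⟩, Or.inl rfl⟩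
  have hinv : ∀ j v, j < s + 1 → D (j + 1) v → ¬ D j v → ∃ u, g v u ∧ D j u := by
    rintro j v hj ⟨hv, c, hc1, hc2⟩ hnD
    have hnew : ∀ b, Cl H (n + j) x y b → ¬ SB H K b v := fun b hb g' => hnD ⟨hv, b, hb, g'⟩
    rcases hc1 with hc1 | ⟨b1, hb1, e1, b2, hb2, e2⟩
    · exact absurd hc2 (hnew c hc1)
    have hcK' : K c := by
      by_contra hn
      exact e2 (h.se _ _ (hK b1 b2 c (hcK _ b1 hb1) (hcK _ b2 hb2) hn (h.se _ _ e1)))
    have hcb : ∀ b, Cl H (n + j) x y b → ¬ SB H K c b := fun b hb g' =>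
      hnew b hb (sb_trans h hKe hKf (sb_symm g') hc2)
    have k1 : H v b1 := (blk_adj h hKe hKf hcK' hv hc2 (hcb b1 hb1)).1 e1
    have k2 : ¬ H v b2 := fun g' => e2 ((blk_adj h hKe hKf hcK' hv hc2 (hcb b2 hb2)).2 g')
    refine ⟨b1, ⟨hv, k1, ?_⟩, hcK _ b1 hb1, b1, hb1, Or.inl rfl⟩
    intro hq
    obtain ⟨q', h1, h2⟩ := hc v hq
    have h3 := h1.2 b2 (cl_mono' (show n + j ≤ n + (s + 1) by omega) hb2)
    exact k2 ((blk_adj h hKe hKf hv h1.1 h2 (fun g' => hnew b2 hb2 (sb_symm g'))).2 h3)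
  obtain ⟨z, g1, g2, g3, g4⟩ := new_blk h hK hKe hKf hx hy hxy (n + s)
    (qn_mono (by omega) hd)
  obtain ⟨p, _, p2, p3⟩ := layers hstep hinv (s + 1) le_rfl z
    ⟨g1, z, cl_new (m := n + s) g3 g4, Or.inl rfl⟩
    (fun m hm g' => by
      obtain ⟨_, c, hc1, hc2⟩ := g'
      exact g2 c (cl_mono' (by omega) hc1) hc2)
  have hsb : ∀ i j, i < j → j ≤ s + 1 → ¬ SB H K (p i) (p j) := by
    intro i j hij hj hsb
    obtain ⟨⟨k1, c, hc1, hc2⟩, _⟩ := p2 i (by omega)
    exact (p2 j hj).2 i hij ⟨(p2 j hj).1.1, c, hc1, sb_trans h hKe hKf hc2 hsb⟩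
  have hnq : ∀ j, 1 ≤ j → j ≤ s + 1 → ¬ Qn H K n x y (p j) := by
    intro j hj1 hj2
    have := (p3 (j - 1) (by omega)).2.2
    rwa [Nat.sub_add_cancel hj1] at this
  have hdp : ∀ j, 1 ≤ j → j ≤ s + 1 → ¬ SB H K d (p j) := by
    intro j hj1 hj2 hsb'
    apply hnq j hj1 hj2
    refine ⟨(p2 j hj2).1.1, fun c hc' => ?_⟩
    have hdc : H d c := hd.2 c (cl_mono' (by omega) hc')
    have hndc : ¬ SB H K d c := by
      intro g'
      refine (p2 j hj2).2 0 (by omega) ⟨(p2 j hj2).1.1, c, hc', ?_⟩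
      exact sb_trans h hKe hKf (sb_symm g') hsb'
    exact (blk_adj h hKe hKf hd.1 (p2 j hj2).1.1 hsb' hndc).1 hdc
  refine fan_K h hl hd.1 (fun i => p (i + 1)) ?_ ?_ ?_
  · intro i hi
    obtain ⟨⟨k1, c, hc1, hc2⟩, _⟩ := p2 (i + 1) (by omega)
    have k2 := hdp (i + 1) (by omega) (by omega)
    refine ⟨k1, ?_, k2⟩
    have k3 : H c d := h.se _ _ (hd.2 c (cl_mono' (by omega) hc1))
    have k4 : ¬ SB H K c d := fun g' => k2 (sb_trans h hKe hKf (sb_symm g') hc2)
    exact h.se _ _ ((blk_adj h hKe hKf (hcK _ c hc1) k1 hc2 k4).1 k3)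
  · intro i hi j hj hij
    rcases lt_or_gt_of_ne hij with g' | g'
    · exact hsb _ _ (by omega) (by omega)
    · exact fun g'' => hsb _ _ (by omega) (by omega) (sb_symm g'')
  · have hfar : ∀ i j, i + 1 < j → j ≤ s + 1 → ¬ H (p j) (p i) := by
      intro i j hij hj hH
      exact (p2 j hj).2 (i + 1) hij (hstep i (p j) (p i)
        ⟨(p2 j hj).1.1, hH, hnq j (by omega) hj⟩ (p2 i (by omega)).1)
    intro i hi j hj
    constructor
    · intro hH
      rcases lt_trichotomy i j with g' | g' | g'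
      · left
        by_contra hn
        exact hfar (i + 1) (j + 1) (by omega) (by omega) (h.se _ _ hH)
      · subst g'
        exact absurd hH (h.ie _)
      · right
        by_contra hn
        exact hfar (j + 1) (i + 1) (by omega) (by omega) hH
    · rintro (g' | g')
      · subst g'
        exact h.se _ _ (p3 (i + 1) (by omega)).2.1
      · subst g'
        exact (p3 (j + 1) (by omega)).2.1

/-- The radius of the closure. -/
def R0 (s t : ℕ) : ℕ := 2 * t + t * (s + 1)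

/-- No element of `K` is adjacent to the whole closure. -/
theorem no_dom (h : Cmp H f) (hl : Lab s t H K) (hK : Q.Mod H K) (hKe : Conn H K)
    (hKf : Conn f K) (hx : K x) (hy : K y) (hxy : ¬ SB H K x y) {d : V} (hd : K d) :
    ∃ c, Cl H (R0 s t) x y c ∧ ¬ H d c := by
  classical
  have hne : x ≠ y := fun g => hxy (Or.inl g)
  have key : ∀ k n, (∀ A : Finset V, (∀ a ∈ A, Qn H K n x y a) → Ind H K A → A.card ≤ k) →
      ∀ d, ¬ Qn H K (n + k * (s + 1)) x y d := by
    intro k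
    induction k with
    | zero =>
      intro n hn d hd
      have h1 := hn {d} (fun a ha => by
        rw [Finset.mem_singleton] at ha
        subst ha
        exact qn_mono (by omega) hd) (fun b hb b' hb' hne => by
        rw [Finset.mem_singleton] at hb hb'
        exact absurd (hb.trans hb'.symm) hne)
      rw [Finset.card_singleton] at h1
      omega
    | succ k ih =>
      intro n hn d hd
      have e1 : n + (k + 1) * (s + 1) = n + (s + 1) + k * (s + 1) := by ring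
      rw [e1] at hd
      by_cases hcnt : ∀ A : Finset V, (∀ a ∈ A, Qn H K (n + (s + 1)) x y a) → Ind H K A →
          A.card ≤ k
      · exact ih (n + (s + 1)) hcnt d hd
      · push Not at hcnt
        obtain ⟨A, hA, hI, hAc⟩ := hcnt
        refine no_const h hl hK hKe hKf hx hy hxy n ?_ (qn_mono (Nat.le_add_right _ _) hd)
        intro q hq
        by_contra hn'
        push Not at hn'
        have h1 := hn (insert q A) (fun a ha => by
          rw [Finset.mem_insert] at ha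
          rcases ha with rfl | ha
          · exact hq
          · exact qn_mono (Nat.le_add_right _ _) (hA a ha))
          (hI.insert fun b hb g => hn' b (hA b hb) (sb_symm g))
        have hqA : q ∉ A := fun g => hn' q (hA q g) (Or.inl rfl)
        rw [Finset.card_insert_of_notMem hqA] at h1
        omega
  by_contra hn
  push Not at hn
  have hdq : Qn H K (R0 s t) x y d := ⟨hd, hn⟩
  refine key t (2 * t) ?_ d hdq
  intro A hA hI
  by_contra hcA
  push Not at hcA
  have hA0 : ∃ a, a ∈ A := by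
    have : A.Nonempty := by
      rw [← Finset.card_pos]
      omega
    exact this
  obtain ⟨a0, ha0⟩ := hA0
  obtain ⟨B, b1, b2, b3⟩ := grow h hK hKe hKf hx hy hxy (2 * t) (hA a0 ha0)
  exact ktt2 h hl hKe hKf A B (fun a ha => (hA a ha).1) (fun b hb => (b1 b hb).1)
    hI b2 (fun a ha b hb _ => (hA a ha).2 b (b1 b hb).2) (by omega) (by omega)

end K

end P1346e8
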