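import Pool.Agent.Lib.P1346K.Corn
import Pool.Agent.Lib.P1346K.DefK
import Pool.Agent.Lib.P1346Q.FinalQ

/-!
# Q1 for classes of ordered graphs whose pairs of parts have sparse or cosparse quotients
-/

set_option autoImplicit false

namespace P1346e8

namespace K

open Q

/-- The order. -/
def rK (s t : ℕ) {V : Type} (H lt : V → V → Prop) : V → V → Prop :=
  rhoT (Tm H (co H) (R0 s t + 2) (2 * t + s + 2)) lt

/-- The data of one graph. -/
theorem pair_data (s t : ℕ) : ∃ T : ℕ, ∀ (V : Type) (_ : Finite V) (H lt : V → V → Prop)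
    (_ : MixDec s t H) (_ : ∀ u v, H u v → H v u) (_ : ∀ u, ¬ H u u)
    (_ : StrictLin (fun _ => True) lt),
    StrictLin (fun _ => True) (rK s t H lt) ∧
      BicliqueFree T (Corner (fun _ => True) (rK s t H lt) (fun _ => True) (rK s t H lt) H) := by
  obtain ⟨T, hT⟩ := corner_free s t
  refine ⟨T, ?_⟩
  intro V _ H lt hB hs hi hlt
  obtain ⟨ν, hν, hνi⟩ := rank hlt
  have h := cmp_co hs hi
  have hB' := labAll h hB
  have hN : Nest (Wm H (co H) (fun K => ¬ GT H H (co H) (R0 s t + 2) (2 * t + s + 2) K)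
    (fun K => ¬ GT H (co H) H (R0 s t + 2) (2 * t + s + 2) K)) := nest h
  have e : rK s t H lt = Rr (Wm H (co H) (fun K => ¬ GT H H (co H) (R0 s t + 2) (2 * t + s + 2) K)
      (fun K => ¬ GT H (co H) H (R0 s t + 2) (2 * t + s + 2) K)) ν := by
    funext x y
    refine propext (rho_iff hN ?_ hν x y)
    intro i x y hs z
    exact tm_iff h hB' le_rfl le_rfl (fun K => Iff.rfl) (fun K => Iff.rfl) i x y hs z
  rw [e]
  exact ⟨rr_strict hN hνi, hT V inferInstance H (co H) h hB' _ _ le_rfl le_rfl ν hνi⟩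

theorem final_mix (C : Set Str) (hC : ∀ A ∈ C, A.IsOrderedGraph) (N s t : ℕ)
    (h : ∀ A ∈ C, ∃ κ : A.V → Fin N, ∀ α β, ∃ c : Prop,
      MixDec s t (pairGraph (A.r 0) κ α β c)) :
    ∃ P : Set Str, IsPermClass P ∧ IsTransductionOf C P ∧ IsTransductionOf P C := by
  classical
  obtain ⟨T, hT⟩ := pair_data s t
  choose κ c hκ using fun i : C => h i.1 i.2
  let J : Type := Fin (Fintype.card (Fin N × Fin N))
  let en : J ≃ Fin N × Fin N := (Fintype.equivFin _).symm
  let M : J → (i : C) → i.1.V → i.1.V → Prop := fun j i =>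
    pairGraph (i.1.r 0) (κ i) (en j).1 (en j).2 (c i (en j).1 (en j).2)
  have hV : ∀ i : C, Finite i.1.V := fun i => i.1.fin
  have hsym : ∀ (j : J) (i : C) (u v : i.1.V), M j i u v → M j i v u := by
    rintro j i u v ⟨h1, h2, h3⟩
    refine ⟨h1.symm, ?_, ?_⟩
    · have e : i.1.r 0 v u ↔ i.1.r 0 u v := ⟨(hC i.1 i.2).2.1 v u, (hC i.1 i.2).2.1 u v⟩
      exact e.trans h2
    · rcases h3 with h3 | h3
      · exact Or.inr ⟨h3.2, h3.1⟩
      · exact Or.inl ⟨h3.2, h3.1⟩
  have hdat := fun (i : C) (j : J) =>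
    hT i.1.V (hV i) (M j i) (i.1.r 1) (hκ i (en j).1 (en j).2) (hsym j i) (fun u hu => hu.1 rfl)
      (hC i.1 i.2).2.2
  let U : (i : C) → (Fin N ⊕ (J ⊕ Unit)) → i.1.V → Prop := fun i u v => match u with
    | .inl γ => κ i v = γ
    | .inr (.inl j) => c i (en j).1 (en j).2
    | .inr (.inr _) => True
  have hr : ∀ b, (baseFam (fun i : C => i.1) U).Def2 (fun i => i.1.r b) := fun b =>
    Fam.Def.bin (baseFam (fun i : C => i.1) U) b 0 1
  have hM : ∀ j, (baseFam (fun i : C => i.1) U).Def2 (M j) := fun j =>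
    Fam.Def.and (Fam.Def.not (Fam.Def.eq _ 0 1))
      (Fam.Def.and (Fam.Def.iff (Fam.Def.bin (baseFam (fun i : C => i.1) U) 0 0 1)
        (Fam.Def.un (baseFam (fun i : C => i.1) U) (.inr (.inl j)) 0))
        (Fam.Def.or
          (Fam.Def.and (Fam.Def.un (baseFam (fun i : C => i.1) U) (.inl (en j).1) 0)
            (Fam.Def.un (baseFam (fun i : C => i.1) U) (.inl (en j).2) 1))
          (Fam.Def.and (Fam.Def.un (baseFam (fun i : C => i.1) U) (.inl (en j).2) 0)
            (Fam.Def.un (baseFam (fun i : C => i.1) U) (.inl (en j).1) 1))))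
  have hρ : ∀ j, (baseFam (fun i : C => i.1) U).Def2
      (fun i => rK s t (M j i) (i.1.r 1)) := fun j =>
    def2_rhoT (def3_Tm (hM j) (def2_co (hM j)) _ _) (hr 1)
  refine main_fam C hC (υ := Fin N ⊕ (J ⊕ Unit)) U (fun _ => .inr (.inr ()))
    (fun _ => .inr (.inr ()))
    (fun j i => rK s t (M j i) (i.1.r 1))
    (fun j i => rK s t (M j i) (i.1.r 1))
    M (fun j i x y _ => ⟨trivial, trivial⟩) (fun j i x y _ => ⟨trivial, trivial⟩)
    (fun j i x y _ => ⟨trivial, trivial⟩)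
    (fun j i => (hdat i j).1) (fun j i => (hdat i j).1) hρ hρ hM
    T (fun j i => (hdat i j).2) ?_
  have h1 := Fam.Def.exFin (F := Asm.relFam C U M) (n := 2) (α := J)
    (Q := fun j i v => U i (.inl (en j).1) (v 0) ∧ U i (.inl (en j).2) (v 1) ∧ ¬ (v 0 = v 1) ∧
      (M j i (v 0) (v 1) ↔ U i (.inr (.inl j)) (v 0))) (by omega)
    fun j => Fam.Def.and (Fam.Def.un (Asm.relFam C U M) (.inl (en j).1) 0)
      (Fam.Def.and (Fam.Def.un (Asm.relFam C U M) (.inl (en j).2) 1)
        (Fam.Def.and (Fam.Def.not (Fam.Def.eq _ 0 1))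
          (Fam.Def.iff (Fam.Def.bin (Asm.relFam C U M) (some j) 0 1)
            (Fam.Def.un (Asm.relFam C U M) (.inr (.inl j)) 0))))
  refine h1.congr fun i v => ?_
  constructor
  · intro h0
    have hne : ¬ (v 0 = v 1) := by
      intro he
      rw [he] at h0
      exact (hC i.1 i.2).1 _ h0
    refine ⟨en.symm (κ i (v 0), κ i (v 1)), ?_⟩
    have e : en (en.symm (κ i (v 0), κ i (v 1))) = (κ i (v 0), κ i (v 1)) :=
      Equiv.apply_symm_apply _ _
    refine ⟨?_, ?_, hne, ?_⟩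
    · change κ i (v 0) = (en (en.symm (κ i (v 0), κ i (v 1)))).1
      rw [e]
    · change κ i (v 1) = (en (en.symm (κ i (v 0), κ i (v 1)))).2
      rw [e]
    · constructor
      · rintro ⟨_, h3, _⟩
        exact h3.1 h0
      · intro h3
        refine ⟨hne, iff_of_true h0 h3, ?_⟩
        left
        rw [e]
        exact ⟨rfl, rfl⟩
  · rintro ⟨j, h1, h2, h3, h4⟩
    change i.1.r 0 (v 0) (v 1)
    have h1' : κ i (v 0) = (en j).1 := h1
    have h2' : κ i (v 1) = (en j).2 := h2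
    by_contra hn
    by_cases hc : c i (en j).1 (en j).2
    · exact hn ((h4.2 hc).2.1.2 hc)
    · exact hc (h4.1 ⟨h3, iff_of_false hn hc, Or.inl ⟨h1', h2'⟩⟩)

end K

end P1346e8
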