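import Pool.Agent.Lib.P1346K.Dom
import Pool.Agent.Lib.P1346Q.Corr

/-!
# A block is described by its neighbours
-/

set_option autoImplicit false

namespace P1346e8

namespace K

open Q

variable {V : Type} {H f e : V → V → Prop} {W K : V → Prop} {s t : ℕ} {x y : V}

theorem ne_blk (h : Cmp e f) (hKe : Conn e K) (hKf : Conn f K) {c v : V} (hc : K c)
    (hv : K v) (hcv : SB e K c v) (hN : Ne e (fun y => K y ∧ SB e K x y) c) :
    Ne e (fun y => K y ∧ SB e K x y) v := by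
  have hxc : ¬ SB e K x c := fun g => hN.1 ⟨hc, g⟩
  refine ⟨fun g => hxc (sb_trans h hKe hKf g.2 (sb_symm hcv)), fun w hw => ?_⟩
  have hcw : ¬ SB e K c w := fun g => hxc (sb_trans h hKe hKf hw.2 (sb_symm g))
  exact (blk_adj h hKe hKf hc hv hcv hcw).1 (hN.2 w hw)

theorem ne_out (h : Cmp e f) (hK : Q.Mod e K) {c u : V} (hc : K c) (hu : ¬ K u) (hcu : e c u) :
    Ne e (fun y => K y ∧ SB e K x y) u :=
  ⟨fun g => hu g.1, fun w hw => h.se _ _ (hK c w u hc hw.1 hu hcu)⟩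

theorem fm_blk (h : Cmp e f) (hK : Q.Mod e K) (hKe : Conn e K) (hKf : Conn f K)
    {c v : V} (hc : K c) (hv : K v) (hcv : SB e K c v)
    (hF : Fm e (Ne e (fun y => K y ∧ SB e K x y)) c) :
    Fm e (Ne e (fun y => K y ∧ SB e K x y)) v := by
  refine ⟨fun g => hF.1 (ne_blk h hKe hKf hv hc (sb_symm hcv) g), fun n hn => ?_⟩
  have hcn := hF.2 n hn
  by_cases hnK : K n
  · have hcn' : ¬ SB e K c n := fun g => hF.1 (ne_blk h hKe hKf hnK hc (sb_symm g) hn)
    exact (blk_adj h hKe hKf hc hv hcv hcn').1 hcn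
  · exact hK c v n hc hv hnK hcn

theorem lv_blk (h : Cmp e f) (hK : Q.Mod e K) (hKe : Conn e K) (hKf : Conn f K) :
    ∀ n c v, K c → K v → SB e K c v → Lv e (Ne e (fun y => K y ∧ SB e K x y)) n c →
      Lv e (Ne e (fun y => K y ∧ SB e K x y)) n v := by
  intro n
  induction n with
  | zero =>
    rintro c v hc hv hcv ⟨g1, g2⟩
    exact ⟨fun g => g1 (ne_blk h hKe hKf hv hc (sb_symm hcv) g),
      fun g => g2 (fm_blk h hK hKe hKf hv hc (sb_symm hcv) g)⟩
  | succ n ih =>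
    rintro c v hc hv hcv (g | ⟨u, g1, g2, g3⟩)
    · exact Or.inl (ih c v hc hv hcv g)
    · by_cases hu : K u
      · by_cases hcu : SB e K c u
        · exact Or.inl (ih u v hu hv (sb_trans h hKe hKf (sb_symm hcu) hcv) g3)
        · exact Or.inr ⟨u, (blk_adj h hKe hKf hc hv hcv hcu).1 g1, g2, g3⟩
      · exact absurd (ne_out h hK hc hu g1) g2

theorem lv_ex (h : Cmp e f) (hK : Q.Mod e K) (hKe : Conn e K) (hKf : Conn f K) {b0 : V}
    (hx : K x) (hN0 : Ne e (fun y => K y ∧ SB e K x y) b0) (hb0 : K b0) (hy : K y)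
    (hxy : ¬ SB e K x y) (hNy : ¬ Ne e (fun y => K y ∧ SB e K x y) y) :
    ∃ M, Lv e (Ne e (fun y => K y ∧ SB e K x y)) M y := by
  by_contra hn
  push Not at hn
  have hWm := sb_mod h hKe hKf x
  let C : V → Prop := fun z => K z ∧ ¬ SB e K x z ∧ ¬ Ne e (fun y => K y ∧ SB e K x y) z ∧
    ∀ n, ¬ Lv e (Ne e (fun y => K y ∧ SB e K x y)) n z
  refine hxy (Or.inr ⟨fun z => (K z ∧ SB e K x z) ∨ C z, ?_, Or.inl ⟨hx, Or.inl rfl⟩,
    Or.inr ⟨hy, hxy, hNy, hn⟩, ?_, b0, hb0, ?_⟩)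
  · intro u v z hu hv hz huz
    by_cases hNz : Ne e (fun y => K y ∧ SB e K x y) z
    · rcases hv with hv | hv
      · exact h.se _ _ (hNz.2 v hv)
      · have h0 := hv.2.2.2 0
        by_contra hvz
        exact h0 ⟨hv.2.2.1, fun g => hvz (g.2 z hNz)⟩
    · exfalso
      have hzW : ¬ (K z ∧ SB e K x z) := fun g => hz (Or.inl g)
      rcases hu with hu | hu
      · exact hNz ⟨hzW, fun w hw => h.se _ _ (hWm u w z hu hw hzW huz)⟩
      · have hzK : K z := by
          by_contra g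
          exact hNz (ne_out h hK hu.1 g huz)
        have hzC : ∃ n, Lv e (Ne e (fun y => K y ∧ SB e K x y)) n z := by
          by_contra g
          push Not at g
          exact hz (Or.inr ⟨hzK, fun g' => hzW ⟨hzK, g'⟩, hNz, g⟩)
        obtain ⟨n, hn'⟩ := hzC
        exact hu.2.2.2 (n + 1) (Or.inr ⟨z, huz, hNz, hn'⟩)
  · rintro z (g | g)
    · exact g.1
    · exact g.1
  · rintro (g | g)
    · exact hN0.1 g
    · exact g.2.2.1 hN0

theorem lv_path (h : Cmp e f) (hK : Q.Mod e K) (hKe : Conn e K) (hKf : Conn f K) {b0 : V}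
    (hx : K x) (hN0 : Ne e (fun y => K y ∧ SB e K x y) b0) (hb0 : K b0) (hy : K y)
    (hxy : ¬ SB e K x y) (hF : Fm e (Ne e (fun y => K y ∧ SB e K x y)) y) {L : ℕ}
    (hL : ¬ Lv e (Ne e (fun y => K y ∧ SB e K x y)) L y) :
    ∃ p : ℕ → V, (∀ i, i ≤ L → K (p i) ∧ Fm e (Ne e (fun y => K y ∧ SB e K x y)) (p i)) ∧
      (∀ i j, i < j → j ≤ L → ¬ SB e K (p i) (p j)) ∧
      (∀ i, i < L → e (p (i + 1)) (p i)) ∧ ∀ i j, i + 1 < j → j ≤ L → ¬ e (p j) (p i) := by
  classical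
  have hex := lv_ex h hK hKe hKf hx hN0 hb0 hy hxy hF.1
  set N : V → Prop := Ne e (fun y => K y ∧ SB e K x y) with hNdef
  have hM := Nat.find_spec hex
  have hmin : ∀ m, m < Nat.find hex → ¬ Lv e N m y := fun m hm => Nat.find_min hex hm
  generalize Nat.find hex = M at hM hmin
  have hLM : L < M := by
    by_contra hn
    exact hL (lv_mono (by omega) hM)
  let D : ℕ → V → Prop := fun j v => K v ∧ Lv e N j v
  let g : V → V → Prop := fun v u => e v u ∧ ¬ N u ∧ K v
  have hstep : ∀ n v u, g v u → D n u → D (n + 1) v := by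
    rintro n v u ⟨g1, g2, g3⟩ ⟨_, g5⟩
    exact ⟨g3, Or.inr ⟨u, g1, g2, g5⟩⟩
  have hinv : ∀ n v, n < M → D (n + 1) v → ¬ D n v → ∃ u, g v u ∧ D n u := by
    rintro n v _ ⟨hv, g1⟩ g2
    rcases g1 with g1 | ⟨u, g3, g4, g5⟩
    · exact absurd ⟨hv, g1⟩ g2
    · refine ⟨u, ⟨g3, g4, hv⟩, ?_, g5⟩
      by_contra hu
      exact g4 (ne_out h hK hv hu g3)
  obtain ⟨p, p1, p2, p3⟩ := layers hstep hinv M le_rfl y ⟨hy, hM⟩
    (fun m hm g' => hmin m hm g'.2)
  refine ⟨fun i => p (i + 1), ?_, ?_, ?_, ?_⟩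
  · intro i hi
    refine ⟨(p2 (i + 1) (by omega)).1.1, ?_⟩
    change Fm e N (p (i + 1))
    by_cases hiM : i + 1 = M
    · rw [hiM, p1]
      exact hF
    · have h1 := (p3 (i + 1) (by omega)).2.1
      by_contra h2
      exact (p2 (i + 1) (by omega)).2 0 (by omega) ⟨(p2 (i + 1) (by omega)).1.1, h1, h2⟩
  · intro i j hij hj hsb
    have h1 := lv_blk h hK hKe hKf (i + 1) (p (i + 1)) (p (j + 1))
      (p2 (i + 1) (by omega)).1.1 (p2 (j + 1) (by omega)).1.1 hsb (p2 (i + 1) (by omega)).1.2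
    exact (p2 (j + 1) (by omega)).2 (i + 1) (by omega) ⟨(p2 (j + 1) (by omega)).1.1, h1⟩
  · intro i hi
    exact (p3 (i + 1) (by omega)).1
  · intro i j hij hj he
    have h1 := (p3 (i + 1) (by omega)).2.1
    exact (p2 (j + 1) (by omega)).2 (i + 1 + 1) (by omega)
      (hstep (i + 1) (p (j + 1)) (p (i + 1)) ⟨he, h1, (p2 (j + 1) (by omega)).1.1⟩
        (p2 (i + 1) (by omega)).1)

/-- A block of the connected and co-connected module `K` is described by its neighbours. -/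
theorem formB (h : Cmp e f) (hK : Q.Mod e K) (hKe : Conn e K) (hKf : Conn f K)
    (hx : K x) (hk : ∃ k, K k ∧ ¬ SB e K x k) {L : ℕ}
    (hl : (Lab s t e K ∧ s ≤ L + 1) ∨ (Lab s t f K ∧ 2 * t ≤ L)) (y : V) :
    Form e (Ne e (fun y => K y ∧ SB e K x y)) L y ↔ K y ∧ SB e K x y := by
  have hWm := sb_mod h hKe hKf x
  constructor
  swap
  · intro hy
    exact form_in h hWm hy L
  rintro ⟨hF, hLv⟩
  by_contra hn
  obtain ⟨k, hk1, hk2⟩ := hk
  obtain ⟨a, b0, ha, hA, hb0, hB0, hab⟩ := conn_cut hKe (fun y => K y ∧ SB e K x y) hx hk1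
    ⟨hx, Or.inl rfl⟩ (fun g => hk2 g.2)
  have hNb0 : Ne e (fun y => K y ∧ SB e K x y) b0 :=
    ⟨hB0, fun w hw => h.se _ _ (hWm a w b0 hA hw hB0 hab)⟩
  have hyK : K y := by
    by_contra g
    refine hF.1 ⟨fun g' => g g'.1, fun w hw => ?_⟩
    exact h.se _ _ (hK b0 w y hb0 hw.1 g (h.se _ _ (hF.2 b0 hNb0)))
  have hxy : ¬ SB e K x y := fun g => hn ⟨hyK, g⟩
  obtain ⟨p, p1, p2, p3, p4⟩ := lv_path h hK hKe hKf hx hNb0 hb0 hyK hxy hF hLv
  rcases hl with ⟨hl, hs⟩ | ⟨hl, ht⟩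
  · refine fan_K h hl hb0 p ?_ ?_ ?_
    · intro i hi
      obtain ⟨g1, g2⟩ := p1 i (by omega)
      refine ⟨g1, h.se _ _ (g2.2 b0 hNb0), fun g3 => g2.1 ?_⟩
      exact ne_blk h hKe hKf hb0 g1 g3 hNb0
    · intro i hi j hj hij
      rcases lt_or_gt_of_ne hij with g | g
      · exact p2 i j g (by omega)
      · exact fun g' => p2 j i g (by omega) (sb_symm g')
    · intro i hi j hj
      constructor
      · intro hij
        rcases lt_trichotomy i j with g | g | g
        · left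
          by_contra hn'
          exact p4 i j (by omega) (by omega) (h.se _ _ hij)
        · subst g
          exact absurd hij (h.ie _)
        · right
          by_contra hn'
          exact p4 j i (by omega) (by omega) hij
      · rintro (g | g)
        · subst g
          exact h.se _ _ (p3 i (by omega))
        · subst g
          exact p3 j (by omega)
  · refine anti_K hl p (fun i hi => (p1 i (by omega)).1) ?_ ?_
    · intro i j hij hj g
      exact p2 i j hij (by omega) (sb_cmp h.symm g)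
    · intro i j hij hj
      have hne : p i ≠ p j := fun g => p2 i j (by omega) (by omega) (Or.inl g)
      have h1 := p4 i j hij (by omega)
      exact h.sf _ _ ((h.symm.ef (p j) (p i) hne.symm).2 h1)

end K

end P1346e8
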