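import Pool.Agent.Lib.P1346K.Defs
import Pool.Agent.Lib.P1346Q.Mods

/-!
# Sparse quotients: blocks, bicliques, fans, layers
-/

set_option autoImplicit false

namespace P1346e8

namespace K

open Q

variable {V : Type} {H f e : V → V → Prop} {W K : V → Prop} {s t : ℕ}

/-- Different elements are in different blocks of `K`. -/
def Ind (e : V → V → Prop) (K : V → Prop) (B : Finset V) : Prop :=
  ∀ b ∈ B, ∀ b' ∈ B, b ≠ b' → ¬ SB e K b b'

theorem Ind.subset {B B' : Finset V} (h : Ind e K B) (hs : B' ⊆ B) :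
    Ind e K B' := fun b hb b' hb' => h b (hs hb) b' (hs hb')

theorem Ind.eq {B : Finset V} (h : Ind e K B) {b b' : V} (hb : b ∈ B)
    (hb' : b' ∈ B) (hs : SB e K b b') : b = b' := by
  by_contra hne
  exact h b hb b' hb' hne hs

theorem Ind.insert [DecidableEq V] {B : Finset V} (h : Ind e K B) {y : V}
    (hy : ∀ b ∈ B, ¬ SB e K b y) : Ind e K (Insert.insert y B) := by
  intro b hb b' hb' hne
  rw [Finset.mem_insert] at hb hb'
  rcases hb with rfl | hb
  · rcases hb' with rfl | hb'
    · exact absurd rfl hne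
    · exact fun g => hy b' hb' (sb_symm g)
  · rcases hb' with rfl | hb'
    · exact hy b hb
    · exact h b hb b' hb' hne

/-- Adjacency between blocks: change of the representative. -/
theorem blk_adj (h : Cmp e f) (hKe : Conn e K) (hKf : Conn f K) {b u y : V} (hb : K b) (hu : K u)
    (hbu : SB e K b u) (hy : ¬ SB e K b y) : e b y ↔ e u y := by
  have hm := sb_mod h hKe hKf b
  exact ⟨fun g => hm b u y ⟨hb, Or.inl rfl⟩ ⟨hu, hbu⟩ (fun g' => hy g'.2) g,
    fun g => hm u b y ⟨hu, hbu⟩ ⟨hb, Or.inl rfl⟩ (fun g' => hy g'.2) g⟩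

/-- The quotient of `K` contains neither `K_{t,t}` nor a long induced fan. -/
def Lab (s t : ℕ) (H : V → V → Prop) (K : V → Prop) : Prop :=
  ∃ β : V → ℕ, (∀ a b, K a → K b → β a = β b → SB H K a b) ∧
    (∀ u u' v v', K u → K u' → K v → K v' → β u = β u' → β v = β v' → β u ≠ β v →
      (H u v ↔ H u' v')) ∧
    BicliqueFree t (quotGraph H K β) ∧ FanFree s (quotGraph H K β)

/-- Labels of the hypothesis. -/
theorem labels (h : Cmp H f) (hB : MixDec s t H) (hK : Q.Mod H K) {u u' : V}
    (hu : K u) (hu' : K u') (hne : u ≠ u') : Lab s t H K ∨ Lab s t f K := by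
  obtain ⟨β, ⟨p, q, hp, hq, hpq⟩, hc, c, hd⟩ := hB K ⟨u, u', hu, hu', hne⟩
  have hcls : ∀ a b, K a → K b → β a = β b → SB H K a b := by
    intro a b ha hb hab
    refine Or.inr ⟨fun z => K z ∧ β z = β a, ?_, ⟨ha, rfl⟩, ⟨hb, hab.symm⟩, fun z hz => hz.1, ?_⟩
    · rintro v w y ⟨hv, hv'⟩ ⟨hw, hw'⟩ hy hvy
      by_cases hyK : K y
      · have hne : β v ≠ β y := by
          intro g
          exact hy ⟨hyK, by rw [← g, hv']⟩
        exact (hc v w y y hv hw hyK hyK (by rw [hv', hw']) rfl hne).1 hvy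
      · exact hK v w y hv hw hyK hvy
    · by_cases hpa : β p = β a
      · exact ⟨q, hq, fun g => hpq (by rw [hpa, g.2])⟩
      · exact ⟨p, hp, fun g => hpa g.2⟩
  have hfH : ∀ a b, β a ≠ β b → (f a b ↔ ¬ H a b) := fun a b hab =>
    h.symm.ef a b (fun g => hab (by rw [g]))
  by_cases hcc : c
  · left
    have e1 : quotGraph (fun u v => H u v ↔ c) K β = quotGraph H K β := by
      funext n m
      apply propext
      constructor
      · rintro ⟨g1, a, b, g2, g3, g4, g5, g6⟩
        exact ⟨g1, a, b, g2, g3, g4, g5, g6.2 hcc⟩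
      · rintro ⟨g1, a, b, g2, g3, g4, g5, g6⟩
        exact ⟨g1, a, b, g2, g3, g4, g5, iff_of_true g6 hcc⟩
    rw [e1] at hd
    exact ⟨β, hcls, hc, hd⟩
  · right
    have e1 : quotGraph (fun u v => H u v ↔ c) K β = quotGraph f K β := by
      funext n m
      apply propext
      constructor
      · rintro ⟨g1, a, b, g2, g3, g4, g5, g6⟩
        exact ⟨g1, a, b, g2, g3, g4, g5,
          (hfH a b (by rw [g4, g5]; exact g1)).2 (fun g => hcc (g6.1 g))⟩
      · rintro ⟨g1, a, b, g2, g3, g4, g5, g6⟩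
        exact ⟨g1, a, b, g2, g3, g4, g5,
          iff_of_false ((hfH a b (by rw [g4, g5]; exact g1)).1 g6) hcc⟩
    rw [e1] at hd
    refine ⟨β, ?_, ?_, hd⟩
    · intro a b ha hb hab
      rcases hcls a b ha hb hab with g | ⟨M, g1, g2⟩
      · exact Or.inl g
      · exact Or.inr ⟨M, mod_cmp h g1, g2⟩
    · intro a a' b b' ha ha' hb hb' haa hbb hab
      rw [hfH a b hab, hfH a' b' (by rw [← haa, ← hbb]; exact hab),
        hc a a' b b' ha ha' hb hb' haa hbb hab]

/-- No large complete bipartite graph of blocks. -/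
theorem ktt_K (hl : Lab s t H K) (A B : Finset V) (hA : ∀ a ∈ A, K a)
    (hBK : ∀ b ∈ B, K b) (hIA : Ind H K A) (hIB : Ind H K B)
    (hAB : ∀ a ∈ A, ∀ b ∈ B, H a b ∧ ¬ SB H K a b) (hcA : t ≤ A.card) (hcB : t ≤ B.card) :
    False := by
  obtain ⟨β, cls, _, hl, _⟩ := hl
  obtain ⟨p⟩ := Function.Embedding.nonempty_of_card_le
    (show Fintype.card (Fin t) ≤ Fintype.card A by simpa using hcA)
  obtain ⟨q⟩ := Function.Embedding.nonempty_of_card_le
    (show Fintype.card (Fin t) ≤ Fintype.card B by simpa using hcB)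
  refine hl ⟨fun i => β (p i).1, fun j => β (q j).1, ?_, ?_, ?_⟩
  · intro i j hij
    by_contra hne
    have h1 := hIA.eq (p i).2 (p j).2 (cls _ _ (hA _ (p i).2) (hA _ (p j).2) hij)
    exact hne (p.injective (Subtype.ext h1))
  · intro i j hij
    by_contra hne
    have h1 := hIB.eq (q i).2 (q j).2 (cls _ _ (hBK _ (q i).2) (hBK _ (q j).2) hij)
    exact hne (q.injective (Subtype.ext h1))
  · intro i j
    have h1 := hAB _ (p i).2 _ (q j).2
    exact ⟨fun g => h1.2 (cls _ _ (hA _ (p i).2) (hBK _ (q j).2) g), (p i).1, (q j).1,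
      hA _ (p i).2, hBK _ (q j).2, rfl, rfl, h1.1⟩

/-- The same, where adjacency is only known for different blocks. -/
theorem ktt2 (h : Cmp H f) (hl : Lab s t H K) (hKe : Conn H K)
    (hKf : Conn f K) (A B : Finset V) (hA : ∀ a ∈ A, K a)
    (hBK : ∀ b ∈ B, K b) (hIA : Ind H K A) (hIB : Ind H K B)
    (hAB : ∀ a ∈ A, ∀ b ∈ B, ¬ SB H K a b → H a b) (hcA : t ≤ A.card) (hcB : 2 * t ≤ B.card) :
    False := by
  classical
  obtain ⟨A', hA', hcA'⟩ := Finset.exists_subset_card_eq hcA
  have h1 : (B.filter fun b => ∃ a ∈ A', SB H K a b).card ≤ t := by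
    have h2 : (B.filter fun b => ∃ a ∈ A', SB H K a b) ⊆
        A'.biUnion fun a => B.filter fun b => SB H K a b := by
      intro b hb
      rw [Finset.mem_filter] at hb
      obtain ⟨hb, a, ha, hab⟩ := hb
      exact Finset.mem_biUnion.2 ⟨a, ha, Finset.mem_filter.2 ⟨hb, hab⟩⟩
    have h3 : ∀ a ∈ A', (B.filter fun b => SB H K a b).card ≤ 1 := by
      intro a _
      rw [Finset.card_le_one]
      intro b hb b' hb'
      rw [Finset.mem_filter] at hb hb'
      exact hIB.eq hb.1 hb'.1 (sb_trans h hKe hKf (sb_symm hb.2) hb'.2)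
    have h4 := (Finset.card_le_card h2).trans (Finset.card_biUnion_le_card_mul _ _ _ h3)
    rw [hcA'] at h4
    omega
  have h5 := Finset.card_filter_add_card_filter_not (s := B) (fun b => ∃ a ∈ A', SB H K a b)
  refine ktt_K hl A' (B.filter fun b => ¬ ∃ a ∈ A', SB H K a b)
    (fun a ha => hA a (hA' ha)) (fun b hb => hBK b (Finset.mem_filter.1 hb).1)
    (hIA.subset hA') (hIB.subset (Finset.filter_subset _ _)) ?_ hcA'.ge (by omega)
  intro a ha b hb
  rw [Finset.mem_filter] at hb
  have h6 : ¬ SB H K a b := fun g => hb.2 ⟨a, ha, g⟩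
  exact ⟨hAB a (hA' ha) b hb.1 h6, h6⟩

/-- No long induced fan of blocks. -/
theorem fan_K (h : Cmp H f) (hl : Lab s t H K) {d : V} (hd : K d) (p : ℕ → V)
    (hp : ∀ i, i < s → K (p i) ∧ H d (p i) ∧ ¬ SB H K d (p i))
    (hpp : ∀ i, i < s → ∀ j, j < s → i ≠ j → ¬ SB H K (p i) (p j))
    (hadj : ∀ i, i < s → ∀ j, j < s → (H (p i) (p j) ↔ (i + 1 = j ∨ j + 1 = i))) : False := by
  obtain ⟨β, cls, hc, _, hl⟩ := hl
  refine hl ⟨β d, fun i => β (p i.1), ?_, ?_, ?_⟩
  · intro i j hij
    by_contra hne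
    exact hpp i.1 i.2 j.1 j.2 (fun g => hne (Fin.ext g))
      (cls _ _ (hp i.1 i.2).1 (hp j.1 j.2).1 hij)
  · intro i
    obtain ⟨g1, g2, g3⟩ := hp i.1 i.2
    exact ⟨fun g => g3 (cls _ _ hd g1 g), d, p i.1, hd, g1, rfl, rfl, g2⟩
  · intro i j
    obtain ⟨g1, g2, g3⟩ := hp i.1 i.2
    obtain ⟨k1, k2, k3⟩ := hp j.1 j.2
    rw [← hadj i.1 i.2 j.1 j.2]
    constructor
    · rintro ⟨g4, a, b, ha, hb, hai, hbj, hab⟩
      exact (hc a (p i.1) b (p j.1) ha g1 hb k1 hai hbj (by rw [hai, hbj]; exact g4)).1 hab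
    · intro g4
      have hij : i.1 ≠ j.1 := by
        intro g
        rw [g] at g4
        exact h.ie _ g4
      exact ⟨fun g => hpp i.1 i.2 j.1 j.2 hij (cls _ _ g1 k1 g), p i.1, p j.1, g1, k1, rfl, rfl,
        g4⟩

/-- No long induced path of the complement. -/
theorem anti_K (hl : Lab s t H K) (p : ℕ → V) (hp : ∀ i, i ≤ 2 * t → K (p i))
    (hpp : ∀ i j, i < j → j ≤ 2 * t → ¬ SB H K (p i) (p j))
    (hadj : ∀ i j, i + 1 < j → j ≤ 2 * t → H (p i) (p j)) : False := by
  classical
  have hinj : ∀ i j, i < j → j ≤ 2 * t → p i ≠ p j := fun i j hij hj g =>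
    hpp i j hij hj (Or.inl g)
  have hIm : ∀ c, c + t ≤ 2 * t + 1 → ((Finset.range t).image fun i => p (c + i)).card = t ∧
      Ind H K ((Finset.range t).image fun i => p (c + i)) := by
    intro c hc
    constructor
    · rw [Finset.card_image_of_injOn, Finset.card_range]
      intro i hi j hj hij
      rw [Finset.mem_coe, Finset.mem_range] at hi hj
      rcases lt_trichotomy i j with g | g | g
      · exact absurd hij (hinj _ _ (by omega) (by omega))
      · exact g
      · exact absurd hij.symm (hinj _ _ (by omega) (by omega))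
    · intro a ha b hb hab
      rw [Finset.mem_image] at ha hb
      obtain ⟨i, hi, rfl⟩ := ha
      obtain ⟨j, hj, rfl⟩ := hb
      rw [Finset.mem_range] at hi hj
      rcases lt_trichotomy i j with g | g | g
      · exact hpp _ _ (by omega) (by omega)
      · subst g
        exact absurd rfl hab
      · exact fun g' => hpp _ _ (by omega) (by omega) (sb_symm g')
  refine ktt_K hl ((Finset.range t).image fun i => p (0 + i))
    ((Finset.range t).image fun i => p (t + 1 + i)) ?_ ?_ (hIm 0 (by omega)).2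
    (hIm (t + 1) (by omega)).2 ?_ (hIm 0 (by omega)).1.ge (hIm (t + 1) (by omega)).1.ge
  · intro a ha
    rw [Finset.mem_image] at ha
    obtain ⟨i, hi, rfl⟩ := ha
    rw [Finset.mem_range] at hi
    exact hp _ (by omega)
  · intro a ha
    rw [Finset.mem_image] at ha
    obtain ⟨i, hi, rfl⟩ := ha
    rw [Finset.mem_range] at hi
    exact hp _ (by omega)
  · intro a ha b hb
    rw [Finset.mem_image] at ha hb
    obtain ⟨i, hi, rfl⟩ := ha
    obtain ⟨j, hj, rfl⟩ := hb
    rw [Finset.mem_range] at hi hj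
    exact ⟨hadj _ _ (by omega) (by omega), hpp _ _ (by omega) (by omega)⟩

/-- Shortest paths. -/
theorem layers {D : ℕ → V → Prop} {g : V → V → Prop} {M0 : ℕ}
    (hstep : ∀ n v u, g v u → D n u → D (n + 1) v)
    (hinv : ∀ n v, n < M0 → D (n + 1) v → ¬ D n v → ∃ u, g v u ∧ D n u) :
    ∀ M, M ≤ M0 → ∀ y, D M y → (∀ m, m < M → ¬ D m y) → ∃ p : ℕ → V, p M = y ∧
      (∀ j, j ≤ M → D j (p j) ∧ ∀ m, m < j → ¬ D m (p j)) ∧ ∀ j, j < M → g (p (j + 1)) (p j) := by
  intro M
  induction M with
  | zero =>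
    intro _ y hy _
    refine ⟨fun _ => y, rfl, ?_, fun j hj => absurd hj (Nat.not_lt_zero j)⟩
    intro j hj
    have : j = 0 := by omega
    subst this
    exact ⟨hy, fun m hm => absurd hm (Nat.not_lt_zero m)⟩
  | succ M ih =>
    intro hM0 y hy hm
    obtain ⟨u, hu, hDu⟩ := hinv M y (by omega) hy (hm M (Nat.lt_succ_self M))
    obtain ⟨p, p1, p2, p3⟩ := ih (by omega) u hDu
      (fun m hmM g' => hm (m + 1) (by omega) (hstep m y u hu g'))
    refine ⟨fun j => if j = M + 1 then y else p j, by simp, ?_, ?_⟩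
    · intro j hj
      by_cases hjM : j = M + 1
      · subst hjM
        have e1 : (if M + 1 = M + 1 then y else p (M + 1)) = y := if_pos rfl
        change D (M + 1) (if M + 1 = M + 1 then y else p (M + 1)) ∧
          ∀ m, m < M + 1 → ¬ D m (if M + 1 = M + 1 then y else p (M + 1))
        rw [e1]
        exact ⟨hy, hm⟩
      · have e1 : (if j = M + 1 then y else p j) = p j := if_neg hjM
        change D j (if j = M + 1 then y else p j) ∧ ∀ m, m < j → ¬ D m (if j = M + 1 then y else p j)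
        rw [e1]
        exact p2 j (by omega)
    · intro j hj
      by_cases hjM : j = M
      · subst hjM
        have e1 : (if j = j + 1 then y else p j) = p j := if_neg (by omega)
        have e2 : (if j + 1 = j + 1 then y else p (j + 1)) = y := if_pos rfl
        change g (if j + 1 = j + 1 then y else p (j + 1)) (if j = j + 1 then y else p j)
        rw [e1, e2, p1]
        exact hu
      · have e1 : (if j = M + 1 then y else p j) = p j := if_neg (by omega)
        have e2 : (if j + 1 = M + 1 then y else p (j + 1)) = p (j + 1) := if_neg (by omega)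
        change g (if j + 1 = M + 1 then y else p (j + 1)) (if j = M + 1 then y else p j)
        rw [e1, e2]
        exact p3 j (by omega)

end K

end P1346e8
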