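import Pool.Agent.Lib.P1346Q.Mods
import Pool.Agent.Lib.P1346e8.Lib

/-!
# Nested partitions and their orders
-/

set_option autoImplicit false

namespace P1346e8

namespace K

open Q

variable {V : Type} {H lt : V → V → Prop} {W : ℕ → V → V → Prop} {T : V → V → V → Prop}

/-- A nested sequence of partitions. -/
structure Nest (W : ℕ → V → V → Prop) : Prop where
  self : ∀ i x, W i x x
  sub : ∀ i x y, W (i + 1) x y → W i x y
  eq : ∀ i x y, W i x y → W i x = W i y
  ex : ∀ x y, x ≠ y → ∃ i, W i x y ∧ ¬ W (i + 1) x y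

/-- `x` and `y` are separated after level `i`. -/
def Sp (W : ℕ → V → V → Prop) (i : ℕ) (x y : V) : Prop := W i x y ∧ ¬ W (i + 1) x y

theorem Nest.mono (hW : Nest W) {i j : ℕ} (hij : i ≤ j) {x y : V} (hxy : W j x y) : W i x y := by
  induction hij with
  | refl => exact hxy
  | step _ ih => exact ih (hW.sub _ _ _ hxy)

theorem Nest.symm (hW : Nest W) {i : ℕ} {x y : V} (hxy : W i x y) : W i y x := by
  rw [← hW.eq i x y hxy]
  exact hW.self i x

theorem Nest.trans (hW : Nest W) {i : ℕ} {x y z : V} (hxy : W i x y) (hyz : W i y z) :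
    W i x z := by
  rw [hW.eq i x y hxy]
  exact hyz

theorem Sp.symm (hW : Nest W) {i : ℕ} {x y : V} (hs : Sp W i x y) : Sp W i y x :=
  ⟨hW.symm hs.1, fun g => hs.2 (hW.symm g)⟩

theorem Sp.uniq (hW : Nest W) {i j : ℕ} {x y : V} (hs : Sp W i x y) (hs' : Sp W j x y) :
    i = j := by
  rcases lt_trichotomy i j with g | g | g
  · exact absurd (hW.mono g hs'.1) hs.2
  · exact g
  · exact absurd (hW.mono g hs.1) hs'.2

theorem Sp.ne (hW : Nest W) {i : ℕ} {x y : V} (hs : Sp W i x y) : x ≠ y := by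
  rintro rfl
  exact hs.2 (hW.self _ _)

/-- The block of `x` in the node where `x` and `y` are separated. -/
def Kt (T : V → V → V → Prop) (x y z : V) : Prop := z = x ∨ ¬ T x z y

/-- The order of the vertices. -/
def rhoT (T : V → V → V → Prop) (lt : V → V → Prop) (x y : V) : Prop :=
  x ≠ y ∧ ∃ a, Kt T x y a ∧ ∀ b, Kt T y x b → lt a b

theorem kt_iff (hW : Nest W) (hT : ∀ i x t, Sp W i x t → ∀ y, T x t y ↔ W i x y) {i : ℕ} {x y : V}
    (hs : Sp W i x y) (z : V) : Kt T x y z ↔ W (i + 1) x z := by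
  unfold Kt
  constructor
  · rintro (rfl | g)
    · exact hW.self _ _
    · by_cases hz : x = z
      · subst hz
        exact hW.self _ _
      · obtain ⟨j, hj⟩ := hW.ex x z hz
        rw [hT j x z hj] at g
        by_contra hn
        have hji : j ≤ i := by
          by_contra hji
          exact hn (hW.mono (by omega) hj.1)
        exact g (hW.mono hji hs.1)
  · intro g
    by_cases hz : x = z
    · exact Or.inl hz.symm
    · obtain ⟨j, hj⟩ := hW.ex x z hz
      right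
      rw [hT j x z hj]
      intro g2
      have hij : i + 1 ≤ j := by
        by_contra hij
        exact hj.2 (hW.mono (by omega) g)
      exact hs.2 (hW.mono hij g2)

/-- The smallest number of an element of the node. -/
noncomputable def mn (W : ℕ → V → V → Prop) (ν : V → ℕ) (i : ℕ) (x : V) : ℕ :=
  sInf {n | ∃ z, W i x z ∧ ν z = n}

theorem mn_mem (hW : Nest W) (ν : V → ℕ) (i : ℕ) (x : V) : ∃ z, W i x z ∧ ν z = mn W ν i x :=
  Nat.sInf_mem (s := {n | ∃ z, W i x z ∧ ν z = n}) ⟨ν x, x, hW.self i x, rfl⟩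

theorem mn_le (ν : V → ℕ) {i : ℕ} {x z : V} (hz : W i x z) : mn W ν i x ≤ ν z :=
  Nat.sInf_le (s := {n | ∃ z, W i x z ∧ ν z = n}) ⟨z, hz, rfl⟩

theorem mn_eq (hW : Nest W) (ν : V → ℕ) {i : ℕ} {x y : V} (hxy : W i x y) :
    mn W ν i x = mn W ν i y := by
  unfold mn
  rw [hW.eq i x y hxy]

theorem mn_ne (hW : Nest W) {ν : V → ℕ} (hνi : ∀ a b, ν a = ν b → a = b) {i : ℕ} {x y : V}
    (hxy : ¬ W i x y) : mn W ν i x ≠ mn W ν i y := by
  intro he
  obtain ⟨z, h1, h2⟩ := mn_mem hW ν i x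
  obtain ⟨z', h1', h2'⟩ := mn_mem hW ν i y
  have : z = z' := hνi _ _ (by rw [h2, h2', he])
  subst this
  exact hxy (hW.trans h1 (hW.symm h1'))

/-- The order described by levels. -/
def Rr (W : ℕ → V → V → Prop) (ν : V → ℕ) (x y : V) : Prop :=
  ∃ i, Sp W i x y ∧ mn W ν (i + 1) x < mn W ν (i + 1) y

theorem rho_iff (hW : Nest W) (hT : ∀ i x t, Sp W i x t → ∀ y, T x t y ↔ W i x y) {ν : V → ℕ}
    (hν : ∀ a b, ν a < ν b ↔ lt a b) (x y : V) : rhoT T lt x y ↔ Rr W ν x y := by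
  constructor
  · rintro ⟨hne, a, ha, hb⟩
    obtain ⟨i, hi⟩ := hW.ex x y hne
    refine ⟨i, hi, ?_⟩
    rw [kt_iff hW hT hi] at ha
    obtain ⟨z, h1, h2⟩ := mn_mem hW ν (i + 1) y
    have hi' : Sp W i y x := Sp.symm hW hi
    have h3 := hb z ((kt_iff hW hT hi' z).2 h1)
    rw [← hν] at h3
    have h4 := mn_le ν ha
    omega
  · rintro ⟨i, hi, hlt⟩
    obtain ⟨a, h1, h2⟩ := mn_mem hW ν (i + 1) x
    refine ⟨hi.ne hW, a, (kt_iff hW hT hi a).2 h1, ?_⟩
    intro b hb
    rw [kt_iff hW hT (hi.symm hW)] at hb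
    rw [← hν]
    have h4 := mn_le ν hb
    omega

section order

variable {ν : V → ℕ}

theorem rr_irrefl (hW : Nest W) (x : V) : ¬ Rr W ν x x := by
  rintro ⟨i, hi, _⟩
  exact hi.ne hW rfl

theorem rr_trans (hW : Nest W) {x y z : V} (h1 : Rr W ν x y) (h2 : Rr W ν y z) :
    Rr W ν x z := by
  obtain ⟨i, hi, hi'⟩ := h1
  obtain ⟨j, hj, hj'⟩ := h2
  rcases lt_trichotomy i j with g | rfl | g
  · have hyz : W (i + 1) y z := hW.mono g hj.1
    refine ⟨i, ⟨hW.trans hi.1 (hW.sub _ _ _ hyz),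
      fun g2 => hi.2 (hW.trans g2 (hW.symm hyz))⟩, ?_⟩
    rw [← mn_eq hW ν hyz]
    exact hi'
  · refine ⟨i, ⟨hW.trans hi.1 hj.1, fun g2 => ?_⟩, by omega⟩
    have := mn_eq hW ν g2
    omega
  · have hxy : W (j + 1) x y := hW.mono g hi.1
    refine ⟨j, ⟨hW.trans (hW.sub _ _ _ hxy) hj.1,
      fun g2 => hj.2 (hW.trans (hW.symm hxy) g2)⟩, ?_⟩
    rw [mn_eq hW ν hxy]
    exact hj'

theorem rr_total (hW : Nest W) (hνi : ∀ a b, ν a = ν b → a = b) {x y : V}
    (hne : x ≠ y) : Rr W ν x y ∨ Rr W ν y x := by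
  obtain ⟨i, hi⟩ := hW.ex x y hne
  rcases lt_or_gt_of_ne (mn_ne hW hνi hi.2) with g | g
  · exact Or.inl ⟨i, hi, g⟩
  · exact Or.inr ⟨i, Sp.symm hW hi, g⟩

theorem rr_asymm (hW : Nest W) {x y : V} (h1 : Rr W ν x y) : ¬ Rr W ν y x :=
  fun h2 => rr_irrefl hW x (rr_trans hW h1 h2)

theorem rr_strict (hW : Nest W) (hνi : ∀ a b, ν a = ν b → a = b) :
    StrictLin (fun _ => True) (Rr W ν) :=
  ⟨fun x _ => rr_irrefl hW x, fun _ _ _ _ _ _ => rr_trans hW,
    fun _ _ _ _ hne => rr_total hW hνi hne⟩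

/-- The nodes are convex. -/
theorem rr_convex (hW : Nest W) {i : ℕ} {x y z : V}
    (hxy : Rr W ν x y) (hyz : Rr W ν y z) (hxz : W i x z) : W i x y := by
  by_contra hn
  obtain ⟨j, hj, hj'⟩ := hxy
  obtain ⟨k, hk, hk'⟩ := hyz
  have hji : j < i := by
    by_contra g
    exact hn (hW.mono (by omega) hj.1)
  have hxz' : W (j + 1) x z := hW.mono hji hxz
  have hs : Sp W j y z :=
    ⟨hW.trans (hW.symm hj.1) (hW.sub _ _ _ hxz'), fun g => hj.2 (hW.trans hxz' (hW.symm g))⟩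
  have hjk : j = k := hs.uniq hW hk
  subst hjk
  have := mn_eq hW ν hxz'
  omega

/-- `y` is next after `x`. -/
abbrev Nx (W : ℕ → V → V → Prop) (ν : V → ℕ) (x y : V) : Prop :=
  Nxt (fun _ => True) (Rr W ν) x y

theorem nx_le (hW : Nest W) (hνi : ∀ a b, ν a = ν b → a = b) {x x' y : V}
    (hn : Nx W ν x x') (hxy : Rr W ν x y) : x' = y ∨ Rr W ν x' y := by
  by_cases he : x' = y
  · exact Or.inl he
  · rcases rr_total (ν := ν) hW hνi he with g | g
    · exact Or.inr g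
    · exact absurd ⟨hxy, g⟩ (hn.2.2.2 y trivial)

theorem nx_ge (hW : Nest W) (hνi : ∀ a b, ν a = ν b → a = b) {x x' y : V}
    (hn : Nx W ν x x') (hxy : Rr W ν y x') : y = x ∨ Rr W ν y x := by
  by_cases he : y = x
  · exact Or.inl he
  · rcases rr_total (ν := ν) hW hνi he with g | g
    · exact Or.inr g
    · exact absurd ⟨g, hxy⟩ (hn.2.2.2 y trivial)

theorem nx_inj (hW : Nest W) (hνi : ∀ a b, ν a = ν b → a = b) {x y z : V}
    (hx : Nx W ν x z) (hy : Nx W ν y z) : x = y := by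
  rcases nx_ge hW hνi hx hy.2.2.1 with g | g
  · exact g.symm
  · rcases nx_ge hW hνi hy hx.2.2.1 with g' | g'
    · exact g'
    · exact absurd g' (rr_asymm hW g)

theorem nx_uniq (hW : Nest W) (hνi : ∀ a b, ν a = ν b → a = b) {x y z : V}
    (hx : Nx W ν x y) (hy : Nx W ν x z) : y = z := by
  rcases nx_le hW hνi hx hy.2.2.1 with g | g
  · exact g
  · rcases nx_le hW hνi hy hx.2.2.1 with g' | g'
    · exact g'.symm
    · exact absurd g' (rr_asymm hW g)

theorem last_of (hW : Nest W) (hνi : ∀ a b, ν a = ν b → a = b) {i : ℕ} {y y' z : V}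
    (hn : Nx W ν y y') (hc : ¬ W i y y') (hz : W i y z) : ¬ Rr W ν y z := by
  intro g
  rcases nx_le hW hνi hn g with rfl | g2
  · exact hc hz
  · exact hc (rr_convex hW hn.2.2.1 g2 hz)

theorem first_of (hW : Nest W) (hνi : ∀ a b, ν a = ν b → a = b) {i : ℕ} {y y' z : V}
    (hn : Nx W ν y y') (hc : ¬ W i y y') (hz : W i y' z) : ¬ Rr W ν z y' := by
  intro g
  rcases nx_ge hW hνi hn g with rfl | g2
  · exact hc (hW.symm hz)
  · exact hc (hW.trans (hW.symm (rr_convex hW g2 hn.2.2.1 (hW.symm hz))) (hW.symm hz))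

theorem last_uniq (hW : Nest W) (hνi : ∀ a b, ν a = ν b → a = b) {i : ℕ}
    {y1 y1' y2 y2' : V} (hn1 : Nx W ν y1 y1') (hc1 : ¬ W i y1 y1') (hn2 : Nx W ν y2 y2')
    (hc2 : ¬ W i y2 y2') (h12 : W i y1 y2) : y1 = y2 := by
  by_contra hne
  rcases rr_total (ν := ν) hW hνi hne with g | g
  · exact last_of hW hνi hn1 hc1 h12 g
  · exact last_of hW hνi hn2 hc2 (hW.symm h12) g

theorem first_uniq (hW : Nest W) (hνi : ∀ a b, ν a = ν b → a = b) {i : ℕ}
    {y1 y1' y2 y2' : V} (hn1 : Nx W ν y1 y1') (hc1 : ¬ W i y1 y1') (hn2 : Nx W ν y2 y2')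
    (hc2 : ¬ W i y2 y2') (h12 : W i y1' y2') : y1 = y2 := by
  have he : y1' = y2' := by
    by_contra hne
    rcases rr_total (ν := ν) hW hνi hne with g | g
    · exact first_of hW hνi hn2 hc2 (hW.symm h12) g
    · exact first_of hW hνi hn1 hc1 h12 g
  subst he
  exact nx_inj hW hνi hn1 hn2

/-- At most two elements are at the ends of a node. -/
theorem edge_card (hW : Nest W) (hνi : ∀ a b, ν a = ν b → a = b) {i : ℕ} {z : V}
    (Y : Finset V) (hY : ∀ y ∈ Y, ∃ y', Nx W ν y y' ∧ ((W i z y ∧ ¬ W i z y') ∨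
      (¬ W i z y ∧ W i z y'))) : Y.card ≤ 2 := by
  classical
  have h1 : (Y.filter fun y => W i z y).card ≤ 1 := by
    rw [Finset.card_le_one]
    intro a ha b hb
    rw [Finset.mem_filter] at ha hb
    obtain ⟨a', a1, a2⟩ := hY a ha.1
    obtain ⟨b', b1, b2⟩ := hY b hb.1
    have a3 : ¬ W i z a' := by
      rcases a2 with g | g
      · exact g.2
      · exact absurd ha.2 g.1
    have b3 : ¬ W i z b' := by
      rcases b2 with g | g
      · exact g.2
      · exact absurd hb.2 g.1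
    exact last_uniq hW hνi a1 (fun g => a3 (hW.trans ha.2 g)) b1
      (fun g => b3 (hW.trans hb.2 g)) (hW.trans (hW.symm ha.2) hb.2)
  have h2 : (Y.filter fun y => ¬ W i z y).card ≤ 1 := by
    rw [Finset.card_le_one]
    intro a ha b hb
    rw [Finset.mem_filter] at ha hb
    obtain ⟨a', a1, a2⟩ := hY a ha.1
    obtain ⟨b', b1, b2⟩ := hY b hb.1
    have a3 : W i z a' := by
      rcases a2 with g | g
      · exact absurd g.1 ha.2
      · exact g.2
    have b3 : W i z b' := by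
      rcases b2 with g | g
      · exact absurd g.1 hb.2
      · exact g.2
    exact first_uniq hW hνi a1 (fun g => ha.2 (hW.trans a3 (hW.symm g))) b1
      (fun g => hb.2 (hW.trans b3 (hW.symm g))) (hW.trans (hW.symm a3) b3)
  have h3 := Finset.card_filter_add_card_filter_not (s := Y) (fun y => W i z y)
  omega

/-- The three kinds of corners. -/
theorem kinds (hW : Nest W) (hs : ∀ u v, H u v → H v u) (hm : ∀ i x, Q.Mod H (W i x)) {i j : ℕ}
    {x x' y y' : V} (hx : Sp W i x x') (hy : Sp W j y y')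
    (h1 : ¬ ((H x y ↔ H x' y) ∧ (H x y' ↔ H x' y')))
    (h2 : ¬ ((H x y ↔ H x y') ∧ (H x' y ↔ H x' y'))) :
    (i = j ∧ W i x y) ∨
      ((W j y x ∧ ¬ W j y x') ∨ (¬ W j y x ∧ W j y x')) ∨
      ((W i x y ∧ ¬ W i x y') ∨ (¬ W i x y ∧ W i x y')) := by
  have c1 : W i x y ∨ W i x y' := by
    by_contra hn
    push Not at hn
    apply h1
    have hm := hm i x
    exact ⟨⟨fun g => hm x x' y (hW.self i x) hx.1 hn.1 g,
        fun g => hm x' x y hx.1 (hW.self i x) hn.1 g⟩,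
      ⟨fun g => hm x x' y' (hW.self i x) hx.1 hn.2 g,
        fun g => hm x' x y' hx.1 (hW.self i x) hn.2 g⟩⟩
  have c2 : W j y x ∨ W j y x' := by
    by_contra hn
    push Not at hn
    apply h2
    have hm := hm j y
    exact ⟨⟨fun g => hs _ _ (hm y y' x (hW.self j y) hy.1 hn.1 (hs _ _ g)),
        fun g => hs _ _ (hm y' y x hy.1 (hW.self j y) hn.1 (hs _ _ g))⟩,
      ⟨fun g => hs _ _ (hm y y' x' (hW.self j y) hy.1 hn.2 (hs _ _ g)),
        fun g => hs _ _ (hm y' y x' hy.1 (hW.self j y) hn.2 (hs _ _ g))⟩⟩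
  rcases lt_trichotomy i j with g | g | g
  · right
    left
    have hn : ¬ (W j y x ∧ W j y x') := fun g2 =>
      hx.2 (hW.mono g (hW.trans (hW.symm g2.1) g2.2))
    by_cases g3 : W j y x
    · exact Or.inl ⟨g3, fun g4 => hn ⟨g3, g4⟩⟩
    · exact Or.inr ⟨g3, c2.resolve_left g3⟩
  · left
    refine ⟨g, ?_⟩
    rcases c1 with g1 | g1
    · exact g1
    · subst g
      exact hW.trans g1 (hW.symm hy.1)
  · right
    right
    have hn : ¬ (W i x y ∧ W i x y') := fun g2 =>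
      hy.2 (hW.mono g (hW.trans (hW.symm g2.1) g2.2))
    by_cases g3 : W i x y
    · exact Or.inl ⟨g3, fun g4 => hn ⟨g3, g4⟩⟩
    · exact Or.inr ⟨g3, c1.resolve_left g3⟩

end order

end K

end P1346e8
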