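import Pool.Agent.Lib.P1346K.Tm

/-!
# The first-order description of the nodes is correct
-/

set_option autoImplicit false

namespace P1346e8

namespace K

open Q

variable {V : Type} {H f e e' : V → V → Prop} {W K Y M P : V → Prop} {s t R L : ℕ} {x y : V}
  {α β : (V → Prop) → Prop}

/-- All modules have labels. -/
def LabAll (s t : ℕ) (H f : V → V → Prop) : Prop :=
  ∀ K : V → Prop, Q.Mod H K → ∀ u v, K u → K v → u ≠ v → Lab s t H K ∨ Lab s t f K

theorem LabAll.symm (h : Cmp H f) (hB : LabAll s t H f) : LabAll s t f H :=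
  fun K hK u v hu hv huv => (hB K (mod_cmp h.symm hK) u v hu hv huv).symm

theorem labAll (h : Cmp H f) (hB : MixDec s t H) : LabAll s t H f :=
  fun _ hK _ _ hu hv huv => labels h hB hK hu hv huv

theorem cp_ne (hs : ∀ u v, e u v → e v u) (hc : ¬ Conn e W) (x : V) :
    ∃ z, W z ∧ ¬ Cp e W x z := by
  obtain ⟨z, h1, h2⟩ := bc_ne (φ := fun _ => False) hs hc x
  exact ⟨z, h1, fun g => h2 ⟨g, fun g' => absurd g' id⟩⟩

/-- The blocks of a prime module are described by their neighbours. -/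
theorem ds_blk (h : Cmp H f) (hl : Lab s t H K ∨ Lab s t f K) (hK : Q.Mod H K)
    (hKe : Conn H K) (hKf : Conn f K) (hx : K x) (hk : ∃ k, K k ∧ ¬ SB H K x k)
    (hL : 2 * t + s + 2 ≤ L) : Ds H L (fun y => K y ∧ SB H K x y) ∧
      Ds f L (fun y => K y ∧ SB H K x y) := by
  constructor
  · intro z
    refine formB (s := s) (t := t) h hK hKe hKf hx hk ?_ z
    rcases hl with hl | hl
    · exact Or.inl ⟨hl, by omega⟩
    · exact Or.inr ⟨hl, by omega⟩
  · have e1 : (fun y => K y ∧ SB H K x y) = fun y => K y ∧ SB f K x y := by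
      funext z
      exact propext ⟨fun g => ⟨g.1, cp_sb_cmp h g.2⟩, fun g => ⟨g.1, cp_sb_cmp h.symm g.2⟩⟩
    rw [e1]
    intro z
    obtain ⟨k, k1, k2⟩ := hk
    refine formB (s := s) (t := t) h.symm (mod_cmp h hK) hKf hKe hx
      ⟨k, k1, fun g => k2 (cp_sb_cmp h.symm g)⟩ ?_ z
    rcases hl with hl | hl
    · exact Or.inr ⟨hl, by omega⟩
    · exact Or.inl ⟨hl, by omega⟩

/-- The form of a block. -/
theorem blk_form [Finite V] (h : Cmp H f) (hB : LabAll s t H f) (hP : Q.Mod H P) (hx : P x)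
    (hy : Bm H f α β P x y) (hne : y ≠ x) (hL : 2 * t + s + 2 ≤ L) :
    (Ds H L (Bm H f α β P x) ∧ Ds f L (Bm H f α β P x)) ∨
    (¬ Conn f P ∧ Ds H L (Bm H f α β P x) ∧ Conn f (Bm H f α β P x) ∧
      ¬ (Conn H (Bm H f α β P x) ∧ α (Bm H f α β P x))) ∨
    (¬ Conn H P ∧ Ds f L (Bm H f α β P x) ∧ Conn H (Bm H f α β P x) ∧
      ¬ (Conn f (Bm H f α β P x) ∧ β (Bm H f α β P x))) := by
  by_cases hc : Conn f P
  · by_cases hc' : Conn H P
    · left
      rw [bm_b hc' hc] at hy ⊢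
      have e1 : (fun y => P x ∧ P y ∧ SB H P x y) = fun y => P y ∧ SB H P x y := by
        funext z
        exact propext ⟨fun g => g.2, fun g => ⟨hx, g⟩⟩
      change Ds H L (fun y => P x ∧ P y ∧ SB H P x y) ∧ Ds f L (fun y => P x ∧ P y ∧ SB H P x y)
      rw [e1]
      obtain ⟨k, k1, k2⟩ := sb_ne h hc' hc hx hy.2.1 hne
      exact ds_blk h (hB P hP y x hy.2.1 hx hne) hP hc' hc hx ⟨k, k1, k2⟩ hL
    · rw [bm_p h hc'] at hy ⊢
      by_cases g : Conn f (Cp H P x) ∧ β (Cp H P x)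
      · left
        rw [bc_eq_sb (φ := fun K => Conn f K ∧ β K) g]
        have hxK : Cp H P x x := Cp.refl hx
        obtain ⟨k, k1, k2⟩ := sb_ne h (conn_cp h.se) g.1 hxK hy.1 hne
        exact ds_blk h (hB _ (mod_cp hP x) y x hy.1 hxK hne) (mod_cp hP x) (conn_cp h.se) g.1 hxK
          ⟨k, k1, k2⟩ hL
      · right
        right
        rw [bc_eq_cp (φ := fun K => Conn f K ∧ β K) g]
        exact ⟨hc', fun z => formA h.symm (mod_cmp h hP) (cp_ne h.se hc' x) L z, conn_cp h.se, g⟩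
  · rw [bm_s h hc] at hy ⊢
    by_cases g : Conn H (Cp f P x) ∧ α (Cp f P x)
    · left
      rw [bc_eq_sb (φ := fun K => Conn H K ∧ α K) g]
      have hxK : Cp f P x x := Cp.refl hx
      obtain ⟨k, k1, k2⟩ := sb_ne h.symm (conn_cp h.sf) g.1 hxK hy.1 hne
      exact (ds_blk h.symm (hB _ (mod_cpf h hP x) y x hy.1 hxK hne).symm
        (mod_cmp h (mod_cpf h hP x)) (conn_cp h.sf) g.1 hxK ⟨k, k1, k2⟩ hL).symm
    · right
      left
      rw [bc_eq_cp (φ := fun K => Conn H K ∧ α K) g]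
      exact ⟨hc, fun z => formA h hP (cp_ne h.sf hc x) L z, conn_cp h.sf, g⟩

/-- The form of a node. -/
theorem nf [Finite V] (h : Cmp H f) (hB : LabAll s t H f) (i : ℕ)
    (hy : Wm H f α β i x y) (hne : y ≠ x) (hL : 2 * t + s + 2 ≤ L) :
    (Ds H L (Wm H f α β i x) ∧ Ds f L (Wm H f α β i x)) ∨
    (Ds H L (Wm H f α β i x) ∧ Conn f (Wm H f α β i x) ∧
      ¬ (Conn H (Wm H f α β i x) ∧ α (Wm H f α β i x))) ∨
    (Ds f L (Wm H f α β i x) ∧ Conn H (Wm H f α β i x) ∧
      ¬ (Conn f (Wm H f α β i x) ∧ β (Wm H f α β i x))) := by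
  cases i with
  | zero =>
    left
    have e0 : Wm H f α β 0 x = fun _ => True := rfl
    rw [e0]
    exact ⟨fun z => ⟨fun _ => trivial, fun _ => form_root h L z⟩,
      fun z => ⟨fun _ => trivial, fun _ => form_root h.symm L z⟩⟩
  | succ i =>
    rw [wm_succ]
    rcases blk_form h hB (wm_mod h i x) (wm_self i x) (y := y) hy hne hL with g | g | g
    · exact Or.inl g
    · exact Or.inr (Or.inl g.2)
    · exact Or.inr (Or.inr g.2)

/-- Node with disconnected complement. -/
theorem tm_series [Finite V] (h : Cmp H f) (hB : LabAll s t H f) (hR : R0 s t + 2 ≤ R)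
    (hL : 2 * t + s + 2 ≤ L) (hW : Q.Mod H W) (hD : Ds f L W) (hc : ¬ Conn f W)
    (hα : ∀ K, α K ↔ ¬ GT H H f R L K) (hx : W x) (hy : W y)
    (hxy : ¬ Bm H f α β W x y) (z : V) : Tm H f R L x y z ↔ W z := by
  have hcH := (conn_or h W).resolve_right hc
  have S1 : ∀ u v, W u → W v → ¬ Bm H f α β W u v →
      Gd H f H R L u v ∧ ∀ z, Me H f R L u v z ↔ W z := by
    intro u v hu hv huv
    rw [bm_s h hc] at huv
    by_cases hcp : Cp f W u v
    · have h1 : (Conn H (Cp f W u) ∧ α (Cp f W u)) ∧ ¬ SB f (Cp f W u) u v := by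
        by_contra hn
        exact huv ⟨hcp, fun g => by
          by_contra g'
          exact hn ⟨g, g'⟩⟩
      obtain ⟨⟨hKH, hαK⟩, hsb⟩ := h1
      have hKm := mod_cpf h hW u
      have hKf : Conn f (Cp f W u) := conn_cp h.sf
      have hne : u ≠ v := fun g => hsb (Or.inl g)
      rcases hB _ hKm u v (Cp.refl hu) hcp hne with hl | hl
      · exact absurd (gt_of h hl hKm hKH hKf hR hL
          (fun z => formA h hW (cp_ne h.sf hc u) L z)) ((hα _).1 hαK)
      · have h2 := gd_lab h.symm hl (mod_cmp h hKm) hKf hKH (Cp.refl hu) hcp hsb hR hL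
          (M := W) (mod_cmp h hW) (fun z => by
            rw [ne_cp h.symm (mod_cmp h hW) hu]
            exact hD z) (fun z hz => hz.2.1)
        rw [gd_cmp h, me_cmp h] at h2
        exact h2
    · have e1 := dn_s (R := R) h hW hu hv hcp
      have e2 : Me H f R L u v = W := by
        funext z
        unfold Me
        rw [e1]
        exact propext (hD z)
      have hne : u ≠ v := by
        rintro rfl
        exact hcp (Cp.refl hu)
      have hH : H u v := (h.ef u v hne).2 (fun g => hcp (Cp.step hu hv g))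
      refine ⟨⟨pts_mono' (n := 1) (by omega) (Or.inr ⟨v, (cl_ends R u v).2, hH, rfl⟩), ?_, ?_, ?_⟩,
        fun z => by rw [e2]⟩
      · rw [e2]
        exact hW
      · rw [e2]
        exact hu
      · rw [e2]
        exact hv
  obtain ⟨hG, hMe⟩ := S1 x y hx hy hxy
  have hS : Sg H f H R L x y := by
    refine ⟨hG, ?_⟩
    rintro ⟨u, v, huv, hu, hv, hng, _, hx', hy'⟩
    have hu' := (hMe u).1 hu
    have hv' := (hMe v).1 hv
    by_cases hs : Bm H f α β W u v
    · have hDY : Ds H L (Bm H f α β W u) := by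
        rcases blk_form h hB hW hu' hs huv.symm hL with g | g | g
        · exact g.1
        · exact g.2.1
        · exact absurd hcH g.1
      have hYm : Q.Mod H (Bm H f α β W u) := bm_mod h hW u
      have k1 := me_sub h h.se hYm hYm hDY (bm_refl hu') hs hx'
      have k2 := me_sub h h.se hYm hYm hDY (bm_refl hu') hs hy'
      exact hxy (bm_trans h (bm_symm h k1) k2)
    · exact hng (S1 u v hu' hv' hs).1
  have hnS : ¬ Sg H H f R L x y := by
    rintro ⟨hG', hw⟩
    by_cases hcp : Cp f W x y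
    · have huv := hxy
      rw [bm_s h hc] at huv
      have h1 : (Conn H (Cp f W x) ∧ α (Cp f W x)) ∧ ¬ SB f (Cp f W x) x y := by
        by_contra hn
        exact huv ⟨hcp, fun g => by
          by_contra g'
          exact hn ⟨g, g'⟩⟩
      obtain ⟨⟨hKH, hαK⟩, hsb⟩ := h1
      have hKm := mod_cpf h hW x
      have hbad := (hα _).1 hαK
      unfold GT at hbad
      push Not at hbad
      obtain ⟨u, v, hu, hv, hsuv, hng⟩ := hbad
      have hsub := (me_of_gd h h.se hKm hKm (Cp.refl hx) hcp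
        (fun g => hsb (cp_sb_cmp h g)) hG'.2.1 hG'.2.2.1 hG'.2.2.2).1
      have hnb : ¬ Bm H f α β W u v := by
        rw [bm_s h hc]
        intro g
        have e1 : Cp f W u = Cp f W x := (hu.eq h.sf).symm
        have g2 := g.2
        rw [e1] at g2
        exact hsuv (cp_sb_cmp h.symm (g2 ⟨hKH, hαK⟩))
      obtain ⟨k1, k2⟩ := S1 u v hu.2.1 hv.2.1 hnb
      exact hw ⟨u, v, fun g => hsuv (Or.inl g), hsub u hu, hsub v hv, hng, k1, (k2 x).2 hx,
        (k2 y).2 hy⟩
    · exact no_pts h hW hx hy hcp hG'.1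
  constructor
  · intro g
    exact (hMe z).1 (g.2 hS)
  · intro g
    exact ⟨fun g' => absurd g' hnS, fun _ => (hMe z).2 g⟩

/-- The strongly good pairs of a prime module. -/
theorem sg_prime (h : Cmp H f) (hB : LabAll s t H f)
    (hL : 2 * t + s + 2 ≤ L) (hW : Q.Mod H W) (hcH : Conn H W) (hcf : Conn f W) (hD : Ds H L W)
    (hG : GT H H f R L W) (hx : W x) (hy : W y) (hxy : ¬ SB H W x y) :
    Sg H H f R L x y ∧ ∀ z, Me H H R L x y z ↔ W z := by
  have hG' := hG x y hx hy hxy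
  have hMe : ∀ z, Me H H R L x y z ↔ W z := fun z =>
    ((me_of_gd h h.se hW hW hx hy hxy hG'.2.1 hG'.2.2.1 hG'.2.2.2).2 z).trans (hD z)
  refine ⟨⟨hG', ?_⟩, hMe⟩
  rintro ⟨u, v, huv, hu, hv, hng, _, hx', hy'⟩
  have hu' := (hMe u).1 hu
  have hv' := (hMe v).1 hv
  by_cases hs : SB H W u v
  · have hk : ∃ k, W k ∧ ¬ SB H W u k := by
      by_cases hux : SB H W u x
      · exact ⟨y, hy, fun g => hxy (sb_trans h hcH hcf (sb_symm hux) g)⟩
      · exact ⟨x, hx, hux⟩
    have hDY := (ds_blk h (hB W hW u v hu' hv' huv) hW hcH hcf hu' hk hL).2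
    have hYm := sb_mod h hcH hcf u
    have k1 := me_sub h h.sf hYm (mod_cmp h hYm) hDY ⟨hu', Or.inl rfl⟩ ⟨hv', hs⟩ hx'
    have k2 := me_sub h h.sf hYm (mod_cmp h hYm) hDY ⟨hu', Or.inl rfl⟩ ⟨hv', hs⟩ hy'
    exact hxy (sb_trans h hcH hcf (sb_symm k1.2) k2.2)
  · exact hng (hG u v hu' hv' hs)

/-- Prime nodes. -/
theorem tm_prime (h : Cmp H f) (hB : LabAll s t H f)
    (hL : 2 * t + s + 2 ≤ L) (hW : Q.Mod H W) (hcH : Conn H W) (hcf : Conn f W)
    (hD : (Ds H L W ∧ GT H H f R L W) ∨ (Ds f L W ∧ GT H f H R L W))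
    (hx : W x) (hy : W y) (hxy : ¬ SB H W x y) (z : V) : Tm H f R L x y z ↔ W z := by
  constructor
  · intro g
    rcases hD with ⟨h1, h2⟩ | ⟨h1, h2⟩
    · obtain ⟨k1, k2⟩ := sg_prime h hB hL hW hcH hcf h1 h2 hx hy hxy
      exact (k2 z).1 (g.1 k1)
    · obtain ⟨k1, k2⟩ := sg_prime h.symm (hB.symm h) hL (mod_cmp h hW) hcf hcH h1
        ((gt_cmp h).2 h2) hx hy (fun g' => hxy (cp_sb_cmp h.symm g'))
      rw [sg_cmp h] at k1
      rw [me_cmp h] at k2
      exact (k2 z).1 (g.2 k1)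
  · intro g
    exact ⟨fun g' => (me_of_gd h h.se hW hW hx hy hxy g'.1.2.1 g'.1.2.2.1 g'.1.2.2.2).1 z g,
      fun g' => (me_of_gd h h.sf hW (mod_cmp h hW) hx hy hxy g'.1.2.1 g'.1.2.2.1
        g'.1.2.2.2).1 z g⟩

/-- The first-order description of the nodes is correct. -/
theorem tm_iff [Finite V] (h : Cmp H f) (hB : LabAll s t H f) (hR : R0 s t + 2 ≤ R)
    (hL : 2 * t + s + 2 ≤ L) (hα : ∀ K, α K ↔ ¬ GT H H f R L K)
    (hβ : ∀ K, β K ↔ ¬ GT H f H R L K) (i : ℕ) (x y : V) (hs : Sp (Wm H f α β) i x y) (z : V) :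
    Tm H f R L x y z ↔ Wm H f α β i x z := by
  have hW := wm_mod (α := α) (β := β) h i x
  have hxx : Wm H f α β i x x := wm_self i x
  have hne : y ≠ x := by
    rintro rfl
    exact hs.2 (wm_self _ _)
  have hnf := nf h hB i hs.1 hne hL
  have hsep : ¬ Bm H f α β (Wm H f α β i x) x y := hs.2
  have hyW := hs.1
  generalize hWW : Wm H f α β i x = W at hW hxx hnf hsep hyW ⊢
  by_cases hcf : Conn f W
  · by_cases hcH : Conn H W
    · refine tm_prime h hB hL hW hcH hcf ?_ hxx hyW ?_ z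
      · rcases hnf with g | g | g
        · rcases hB W hW x y hxx hyW hne.symm with hl | hl
          · exact Or.inl ⟨g.1, gt_of h hl hW hcH hcf hR hL g.1⟩
          · exact Or.inr ⟨g.2, (gt_cmp h).1 (gt_of h.symm hl (mod_cmp h hW) hcf hcH hR hL g.2)⟩
        · left
          refine ⟨g.1, ?_⟩
          by_contra g'
          exact g.2.2 ⟨hcH, (hα W).2 g'⟩
        · right
          refine ⟨g.1, ?_⟩
          by_contra g'
          exact g.2.2 ⟨hcf, (hβ W).2 g'⟩
      · intro g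
        rw [bm_b hcH hcf] at hsep
        exact hsep ⟨hxx, hyW, g⟩
    · have hD : Ds H L W := by
        rcases hnf with g | g | g
        · exact g.1
        · exact g.1
        · exact absurd g.2.1 hcH
      have h1 := tm_series (α := β) (β := α) h.symm (hB.symm h) hR hL (mod_cmp h hW) hD hcH
        (fun K => (hβ K).trans (not_congr (gt_cmp h).symm)) hxx hyW
        (by rw [bm_swap h]; exact hsep) z
      rw [tm_swap h] at h1
      exact h1
  · have hD : Ds f L W := by
      rcases hnf with g | g | g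
      · exact g.2
      · exact absurd g.2.1 hcf
      · exact g.1
    exact tm_series h hB hR hL hW hD hcf hα hxx hyW hsep z

end K

end P1346e8
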