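import Pool.Agent.Lib.P1346K.Dom
import Pool.Agent.Lib.P1346Q.Corr

/-!
# Short paths of the complement inside the closure
-/

set_option autoImplicit false

namespace P1346e8

namespace K

open Q

variable {V : Type} {H f e : V → V → Prop} {W K : V → Prop} {s t : ℕ} {x y : V}

theorem blk_adj_f (h : Cmp H f) (hKe : Conn H K) (hKf : Conn f K) {b u z : V} (hb : K b)
    (hu : K u) (hbu : SB H K b u) (hz : ¬ SB H K b z) : f b z ↔ f u z :=
  blk_adj h.symm hKf hKe hb hu (sb_cmp h hbu) (fun g => hz (sb_cmp h.symm g))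

theorem pts_self {R : ℕ} : ∀ n, PtS H f R n x y y := by
  intro n
  cases n with
  | zero => exact rfl
  | succ n => exact Or.inl rfl

theorem pts_mono {R n : ℕ} {u : V} (hp : PtS H f R n x y u) : PtS H f R (n + 1) x y u := by
  induction n generalizing u with
  | zero => exact Or.inl hp
  | succ n ih =>
    rcases hp with hp | ⟨w, h1, h2, h3⟩
    · exact Or.inl hp
    · exact Or.inr ⟨w, h1, h2, ih h3⟩

theorem pts_mono' {R n m : ℕ} (hnm : n ≤ m) {u : V} (hp : PtS H f R n x y u) :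
    PtS H f R m x y u := by
  induction hnm with
  | refl => exact hp
  | step _ ih => exact pts_mono ih

theorem pts_conn (h : Cmp H f) (hl : Lab s t H K) (hK : Q.Mod H K) (hKe : Conn H K)
    (hKf : Conn f K) (hx : K x) (hy : K y) (hxy : ¬ SB H K x y) {R : ℕ} (hR : R0 s t + 2 ≤ R) :
    ∃ M, PtS H f R M x y x := by
  by_contra hn
  push Not at hn
  have hne : x ≠ y := fun g => hxy (Or.inl g)
  have hH : H x y := by
    by_contra g
    exact hn 1 (Or.inr ⟨y, (cl_ends R x y).2, (h.symm.ef x y hne).2 g, rfl⟩)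
  have hcl : ∀ c, Cl H R x y c → H c x ∨ H c y := by
    intro c hc
    by_cases hcx : c = x
    · subst hcx
      exact Or.inr hH
    by_cases hcy : c = y
    · subst hcy
      exact Or.inl (h.se _ _ hH)
    by_cases hp : ∃ n, PtS H f R n x y c
    · obtain ⟨n, hp⟩ := hp
      left
      by_contra g
      exact hn (n + 1) (Or.inr ⟨c, hc, h.sf _ _ ((h.symm.ef c x hcx).2 g), hp⟩)
    · right
      by_contra g
      exact hp ⟨1, Or.inr ⟨y, (cl_ends R x y).2, (h.symm.ef c y hcy).2 g, rfl⟩⟩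
  have hall : ∀ z, K z → Cl H (R0 s t + 1) x y z := by
    by_contra hn'
    push Not at hn'
    obtain ⟨z, hz, hz'⟩ := hn'
    obtain ⟨a, b, ha, hA, hb, hB', hab⟩ := conn_cut hKe (fun z => Cl H (R0 s t + 1) x y z) hx hz
      (cl_ends _ x y).1 hz'
    obtain ⟨c, hc, hbc⟩ := no_dom h hl hK hKe hKf hx hy hxy hb
    have h1 : Cl H (R0 s t + 2) x y b :=
      Or.inr ⟨a, hA, h.se _ _ hab, c, cl_mono hc, hbc⟩
    rcases hcl b (cl_mono' hR h1) with g | g
    · exact hB' (Or.inr ⟨x, (cl_ends _ x y).1, g, c, hc, hbc⟩)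
    · exact hB' (Or.inr ⟨y, (cl_ends _ x y).2, g, c, hc, hbc⟩)
  obtain ⟨a, b, ha, hA, hb, hB', hab⟩ := conn_cut hKf (fun z => ∃ n, PtS H f R n x y z) hy hx
    ⟨0, rfl⟩ (fun ⟨n, g⟩ => hn n g)
  obtain ⟨n, hA⟩ := hA
  exact hB' ⟨n + 1, Or.inr ⟨a, cl_mono' (by omega) (hall a ha), h.sf _ _ hab, hA⟩⟩

theorem pts_blk (h : Cmp H f) (hK : Q.Mod H K) (hKe : Conn H K) (hKf : Conn f K) (hx : K x)
    (hy : K y) {R : ℕ} : ∀ m v, K v → ¬ SB H K y v →
      (∃ c, Cl H R x y c ∧ SB H K c v ∧ PtS H f R m x y c) → PtS H f R m x y v := by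
  intro m
  induction m with
  | zero =>
    rintro v hv hyv ⟨c, _, h2, h3⟩
    change c = y at h3
    subst h3
    exact absurd h2 hyv
  | succ m ih =>
    rintro v hv hyv ⟨c, h1, h2, h3⟩
    rcases h3 with h3 | ⟨w, g1, g2, g3⟩
    · subst h3
      exact absurd h2 hyv
    · have hcK := cl_sub h hK hx hy R c h1
      by_cases hcw : SB H K c w
      · exact pts_mono (ih v hv hyv ⟨w, g1, sb_trans h hKe hKf (sb_symm hcw) h2, g3⟩)
      · exact Or.inr ⟨w, g1, (blk_adj_f h hKe hKf hcK hv h2 hcw).1 g2, g3⟩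

/-- There is a short path of the complement from `x` to `y` inside the closure. -/
theorem pts_of (h : Cmp H f) (hl : Lab s t H K) (hK : Q.Mod H K) (hKe : Conn H K)
    (hKf : Conn f K) (hx : K x) (hy : K y) (hxy : ¬ SB H K x y) {R L : ℕ}
    (hR : R0 s t + 2 ≤ R) (hL : 2 * t ≤ L) : PtS H f R L x y x := by
  classical
  obtain ⟨M', hM'⟩ := pts_conn h hl hK hKe hKf hx hy hxy hR
  have hyx : ¬ SB H K y x := fun g => hxy (sb_symm g)
  have hcK : ∀ c, Cl H R x y c → K c := fun c hc => cl_sub h hK hx hy R c hc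
  let D : ℕ → V → Prop := fun j v => Cl H R x y v ∧
    ∃ c, Cl H R x y c ∧ SB H K c v ∧ PtS H f R j x y c
  have hex : ∃ M, D M x := ⟨M', (cl_ends R x y).1, x, (cl_ends R x y).1, Or.inl rfl, hM'⟩
  have hM := Nat.find_spec hex
  have hmin : ∀ m, m < Nat.find hex → ¬ D m x := fun m hm => Nat.find_min hex hm
  generalize Nat.find hex = M at hM hmin
  by_cases hLM : M ≤ L
  · exact pts_mono' hLM (pts_blk h hK hKe hKf hx hy M x hx hyx hM.2)
  exfalso
  let g : V → V → Prop := fun v u => Cl H R x y v ∧ f v u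
  have hstep : ∀ n v u, g v u → D n u → D (n + 1) v := by
    rintro n v u ⟨g1, g2⟩ ⟨g3, c, g4, g5, g6⟩
    refine ⟨g1, ?_⟩
    by_cases hcv : SB H K c v
    · exact ⟨c, g4, hcv, pts_mono g6⟩
    · have hcv' : f c v := (blk_adj_f h hKe hKf (hcK c g4) (hcK u g3) g5 hcv).2 (h.sf _ _ g2)
      exact ⟨v, g1, Or.inl rfl, Or.inr ⟨c, g4, h.sf _ _ hcv', g6⟩⟩
  have hinv : ∀ n v, n < M → D (n + 1) v → ¬ D n v → ∃ u, g v u ∧ D n u := by
    rintro n v _ ⟨g1, c, g2, g3, g4⟩ hnD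
    rcases g4 with g4 | ⟨w, k1, k2, k3⟩
    · subst g4
      exact absurd ⟨g1, c, g2, g3, pts_self n⟩ hnD
    · have hcw : ¬ SB H K c w := fun g' =>
        hnD ⟨g1, w, k1, sb_trans h hKe hKf (sb_symm g') g3, k3⟩
      exact ⟨w, ⟨g1, (blk_adj_f h hKe hKf (hcK c g2) (hcK v g1) g3 hcw).1 k2⟩, k1, w, k1,
        Or.inl rfl, k3⟩
  obtain ⟨p, p1, p2, p3⟩ := layers hstep hinv M le_rfl x hM hmin
  have hpK : ∀ i, i ≤ M → K (p i) := fun i hi => hcK _ (p2 i hi).1.1
  have hsb : ∀ i j, i < j → j ≤ M → ¬ SB H K (p i) (p j) := by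
    intro i j hij hj hs
    obtain ⟨⟨_, c, g2, g3, g4⟩, _⟩ := p2 i (by omega)
    exact (p2 j hj).2 i hij ⟨(p2 j hj).1.1, c, g2, sb_trans h hKe hKf g3 hs, g4⟩
  refine anti_K hl p (fun i hi => hpK i (by omega)) (fun i j hij hj => hsb i j hij (by omega)) ?_
  intro i j hij hj
  have hne : p i ≠ p j := fun g' => hsb i j (by omega) (by omega) (Or.inl g')
  rw [h.ef _ _ hne]
  intro hf
  exact (p2 j (by omega)).2 (i + 1) hij (hstep i (p j) (p i)
    ⟨(p2 j (by omega)).1.1, h.sf _ _ hf⟩ (p2 i (by omega)).1)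

end K

end P1346e8
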