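import Pool.Agent.Lib.P1346K.Form
import Pool.Agent.Lib.P1346K.Ser
import Pool.Agent.Lib.P1346K.Blk

/-!
# The first-order description of the nodes
-/

set_option autoImplicit false

namespace P1346e8

namespace K

open Q

variable {V : Type} {H f e e' : V → V → Prop} {W K Y M : V → Prop} {s t R L : ℕ} {x y : V}

/-- The module described by the common neighbours of the closure. -/
def Me (H e : V → V → Prop) (R L : ℕ) (x y z : V) : Prop := Form e (Dn H e R x y) L z

/-- There is a short path of `e'` between `x` and `y`, and `Me` is a module that contains them. -/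
def Gd (H e e' : V → V → Prop) (R L : ℕ) (x y : V) : Prop :=
  PtS H e' R L x y x ∧ Q.Mod H (Me H e R L x y) ∧ Me H e R L x y x ∧ Me H e R L x y y

/-- `x`, `y` is a good pair and the module has no bad pair. -/
def Sg (H e e' : V → V → Prop) (R L : ℕ) (x y : V) : Prop :=
  Gd H e e' R L x y ∧ ¬ ∃ u v, u ≠ v ∧ Me H e R L x y u ∧ Me H e R L x y v ∧
    ¬ Gd H e e' R L u v ∧ Gd H e' e R L u v ∧ Me H e' R L u v x ∧ Me H e' R L u v y

/-- The node where `x` and `y` are separated. -/
def Tm (H f : V → V → Prop) (R L : ℕ) (x y z : V) : Prop :=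
  (Sg H H f R L x y → Me H H R L x y z) ∧ (Sg H f H R L x y → Me H f R L x y z)

/-- All separated pairs of `K` are good. -/
def GT (H e e' : V → V → Prop) (R L : ℕ) (K : V → Prop) : Prop :=
  ∀ x y, K x → K y → ¬ SB H K x y → Gd H e e' R L x y

/-- The set is described by its outside neighbours. -/
def Ds (e : V → V → Prop) (L : ℕ) (W : V → Prop) : Prop := ∀ z, Form e (Ne e W) L z ↔ W z

/-! ### Interchanging the graph and its complement -/

theorem cl_cmp (h : Cmp H f) (n : ℕ) (x y : V) : Cl f n x y = Cl H n x y := by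
  induction n with
  | zero => rfl
  | succ n ih =>
    funext z
    apply propext
    change (Cl f n x y z ∨ ∃ a, Cl f n x y a ∧ f z a ∧ ∃ b, Cl f n x y b ∧ ¬ f z b) ↔
      (Cl H n x y z ∨ ∃ a, Cl H n x y a ∧ H z a ∧ ∃ b, Cl H n x y b ∧ ¬ H z b)
    rw [ih]
    by_cases hz : Cl H n x y z
    · exact ⟨fun _ => Or.inl hz, fun _ => Or.inl hz⟩
    · have hne : ∀ a, Cl H n x y a → z ≠ a := by
        rintro a ha rfl
        exact hz ha
      constructor
      · rintro (g | ⟨a, h1, h2, b, h3, h4⟩)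
        · exact Or.inl g
        · exact Or.inr ⟨b, h3, (h.ef z b (hne b h3)).2 h4, a, h1,
            (h.symm.ef z a (hne a h1)).1 h2⟩
      · rintro (g | ⟨a, h1, h2, b, h3, h4⟩)
        · exact Or.inl g
        · exact Or.inr ⟨b, h3, (h.symm.ef z b (hne b h3)).2 h4, a, h1,
            (h.ef z a (hne a h1)).1 h2⟩

theorem pts_cmp (h : Cmp H f) (R n : ℕ) (x y : V) : PtS f e R n x y = PtS H e R n x y := by
  induction n with
  | zero => rfl
  | succ n ih =>
    funext z
    change (z = y ∨ ∃ w, Cl f R x y w ∧ e z w ∧ PtS f e R n x y w) =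
      (z = y ∨ ∃ w, Cl H R x y w ∧ e z w ∧ PtS H e R n x y w)
    rw [ih, cl_cmp h]

theorem me_cmp (h : Cmp H f) : Me f e R L x y = Me H e R L x y := by
  have : Dn f e R x y = Dn H e R x y := by
    funext d
    unfold Dn
    rw [cl_cmp h]
  unfold Me
  rw [this]

theorem mod_cmp_iff (h : Cmp H f) : Q.Mod f M ↔ Q.Mod H M := ⟨mod_cmp h.symm, mod_cmp h⟩

theorem gd_cmp (h : Cmp H f) : Gd f e e' R L x y ↔ Gd H e e' R L x y := by
  unfold Gd
  rw [pts_cmp h, me_cmp h, mod_cmp_iff h]

theorem gt_cmp (h : Cmp H f) : GT f e e' R L K ↔ GT H e e' R L K := by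
  unfold GT
  constructor
  · intro g x y hx hy hs
    exact (gd_cmp h).1 (g x y hx hy (fun g' => hs (cp_sb_cmp h.symm g')))
  · intro g x y hx hy hs
    exact (gd_cmp h).2 (g x y hx hy (fun g' => hs (cp_sb_cmp h g')))

theorem sg_cmp (h : Cmp H f) : Sg f e e' R L x y ↔ Sg H e e' R L x y := by
  unfold Sg
  rw [gd_cmp h, me_cmp h]
  refine and_congr Iff.rfl (not_congr ?_)
  refine exists_congr fun u => exists_congr fun v => ?_
  rw [gd_cmp h, gd_cmp h, me_cmp h]

theorem tm_swap (h : Cmp H f) (z : V) : Tm f H R L x y z ↔ Tm H f R L x y z := by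
  unfold Tm
  rw [sg_cmp h, sg_cmp h, me_cmp h, me_cmp h]
  exact and_comm

/-! ### Good pairs -/

theorem dn_lab (h : Cmp H f) (hl : Lab s t H K) (hK : Q.Mod H K) (hKe : Conn H K)
    (hKf : Conn f K) (hx : K x) (hy : K y) (hxy : ¬ SB H K x y) (hR : R0 s t + 2 ≤ R) :
    Dn H H R x y = Ne H K := by
  funext d
  apply propext
  constructor
  · intro hd
    have hdK : ¬ K d := by
      intro g
      obtain ⟨c, hc, hdc⟩ := no_dom h hl hK hKe hKf hx hy hxy g
      exact hdc (hd c (cl_mono' (by omega) hc))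
    have hdx := hd x (cl_ends R x y).1
    exact ⟨hdK, fun w hw => h.se _ _ (hK x w d hx hw hdK (h.se _ _ hdx))⟩
  · intro hd c hc
    exact hd.2 c (cl_sub h hK hx hy R c hc)

theorem gd_lab (h : Cmp H f) (hl : Lab s t H K) (hK : Q.Mod H K) (hKe : Conn H K)
    (hKf : Conn f K) (hx : K x) (hy : K y) (hxy : ¬ SB H K x y) (hR : R0 s t + 2 ≤ R)
    (hL : 2 * t + s + 2 ≤ L) (hM : Q.Mod H M) (hF : ∀ z, Form H (Ne H K) L z ↔ M z)
    (hKM : ∀ z, K z → M z) : Gd H H f R L x y ∧ ∀ z, Me H H R L x y z ↔ M z := by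
  have e1 := dn_lab h hl hK hKe hKf hx hy hxy hR
  have e2 : Me H H R L x y = M := by
    funext z
    unfold Me
    rw [e1]
    exact propext (hF z)
  refine ⟨⟨pts_of h hl hK hKe hKf hx hy hxy hR (by omega), ?_, ?_, ?_⟩, fun z => by rw [e2]⟩
  · rw [e2]
    exact hM
  · rw [e2]
    exact hKM x hx
  · rw [e2]
    exact hKM y hy

theorem gt_of (h : Cmp H f) (hl : Lab s t H K) (hK : Q.Mod H K) (hKe : Conn H K)
    (hKf : Conn f K) (hR : R0 s t + 2 ≤ R) (hL : 2 * t + s + 2 ≤ L) (hD : Ds H L K) :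
    GT H H f R L K := fun x y hx hy hxy =>
  (gd_lab h hl hK hKe hKf hx hy hxy hR hL hK hD (fun _ hz => hz)).1

/-- A module that meets two blocks contains the prime module. -/
theorem sub_of_mod (hK : Q.Mod H K) (hx : K x) (hy : K y) (hxy : ¬ SB H K x y) (hM : Q.Mod H M)
    (hMx : M x) (hMy : M y) {z : V} (hz : K z) : M z := by
  by_contra hn
  refine hxy (Or.inr ⟨fun z => M z ∧ K z, ?_, ⟨hMx, hx⟩, ⟨hMy, hy⟩, fun z hz => hz.2, z, hz,
    fun g => hn g.1⟩)
  intro u v w hu hv hw huw
  by_cases hwK : K w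
  · exact hM u v w hu.1 hv.1 (fun g => hw ⟨g, hwK⟩) huw
  · exact hK u v w hu.2 hv.2 hwK huw

/-- The described module of a pair in the module `Y` is in `Y`. -/
theorem me_sub (h : Cmp H f) (he : ∀ u v, e u v → e v u) (hY : Q.Mod H Y) (hYe : Q.Mod e Y)
    (hD : Ds e L Y) (hx : Y x) (hy : Y y) {z : V} (hz : Me H e R L x y z) : Y z := by
  by_contra hn
  obtain ⟨⟨g1, g2⟩, g3⟩ := hz
  by_cases hex : ∃ n, Dn H e R x y n ∧ Y n
  · obtain ⟨n, hn1, hn2⟩ := hex
    have h1 := g2 n hn1
    refine g1 (fun c hc => ?_)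
    exact he _ _ (hYe n c z hn2 (cl_sub h hY hx hy R c hc) hn (he _ _ h1))
  · push Not at hex
    have e1 : Dn H e R x y = Ne e Y := by
      funext n
      apply propext
      constructor
      · intro hn1
        refine ⟨hex n hn1, fun w hw => ?_⟩
        exact he _ _ (hYe x w n hx hw (hex n hn1) (he _ _ (hn1 x (cl_ends R x y).1)))
      · intro hn1 c hc
        exact hn1.2 c (cl_sub h hY hx hy R c hc)
    rw [e1] at g1 g2 g3
    exact hn ((hD z).1 ⟨⟨g1, g2⟩, g3⟩)

/-- The described module of a separated pair, if it is a module. -/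
theorem me_of_gd (h : Cmp H f) (he : ∀ u v, e u v → e v u) (hK : Q.Mod H K) (hKe : Q.Mod e K)
    (hx : K x) (hy : K y) (hxy : ¬ SB H K x y) (hM : Q.Mod H (Me H e R L x y))
    (hMx : Me H e R L x y x) (hMy : Me H e R L x y y) :
    (∀ z, K z → Me H e R L x y z) ∧ ∀ z, Me H e R L x y z ↔ Form e (Ne e K) L z := by
  have h1 : ∀ z, K z → Me H e R L x y z := fun z hz => sub_of_mod hK hx hy hxy hM hMx hMy hz
  refine ⟨h1, ?_⟩
  have e1 : Dn H e R x y = Ne e K := by
    funext n
    apply propext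
    constructor
    · intro hn1
      have hnK : ¬ K n := fun g => (h1 n g).1.1 hn1
      refine ⟨hnK, fun w hw => ?_⟩
      exact he _ _ (hKe x w n hx hw hnK (he _ _ (hn1 x (cl_ends R x y).1)))
    · intro hn1 c hc
      exact hn1.2 c (cl_sub h hK hx hy R c hc)
  intro z
  unfold Me
  rw [e1]

/-- A component has the same outside neighbours. -/
theorem ne_cp (h : Cmp e f) (hW : Q.Mod e W) (hx : W x) : Ne e (Cp e W x) = Ne e W := by
  funext d
  apply propext
  constructor
  · rintro ⟨g1, g2⟩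
    have hdx := g2 x (Cp.refl hx)
    have hdW : ¬ W d := fun g => g1 (Cp.step hx g (h.se _ _ hdx))
    exact ⟨hdW, fun w hw => h.se _ _ (hW x w d hx hw hdW (h.se _ _ hdx))⟩
  · rintro ⟨g1, g2⟩
    exact ⟨fun g => g1 g.2.1, fun w hw => g2 w hw.2.1⟩

/-- The neighbours of a node with disconnected complement. -/
theorem dn_s (h : Cmp H f) (hW : Q.Mod H W) (hx : W x) (hy : W y) (hxy : ¬ Cp f W x y) :
    Dn H f R x y = Ne f W := by
  funext d
  apply propext
  constructor
  · intro hd
    have h1 := hd x (cl_ends R x y).1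
    have h2 := hd y (cl_ends R x y).2
    have hdW : ¬ W d := by
      intro hdW
      exact hxy ((Cp.step hx hdW (h.sf _ _ h1)).trans (Cp.step hdW hy h2))
    exact ⟨hdW, fun w hw => h.sf _ _ (mod_cmp h hW x w d hx hw hdW (h.sf _ _ h1))⟩
  · intro hd c hc
    exact hd.2 c (cl_sub h hW hx hy R c hc)

/-- No path of the complement. -/
theorem no_pts (h : Cmp H f) (hW : Q.Mod H W) (hx : W x) (hy : W y) (hxy : ¬ Cp f W x y) :
    ¬ PtS H f R L x y x := by
  have key : ∀ n u, W u → PtS H f R n x y u → Cp f W u y := by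
    intro n
    induction n with
    | zero =>
      intro u hu hp
      change u = y at hp
      subst hp
      exact Cp.refl hu
    | succ n ih =>
      rintro u hu (hp | ⟨w, h1, h2, h3⟩)
      · subst hp
        exact Cp.refl hu
      · have hw := cl_sub h hW hx hy R w h1
        exact (Cp.step hu hw h2).trans (ih w hw h3)
  exact fun g => hxy (key L x hx g)

end K

end P1346e8
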